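import Pool.Agent.W175.GF.Defs

set_option autoImplicit false

/-!
Basic API for project GF: closure properties of slow functions and exponential polynomials.
-/

namespace Pool.Agent.W175.GF

open Complex

/-! ### growth classes -/

/-- subexponential growth with respect to a gauge -/
def SE {Y : Type} (D : Set Y) (g : Y → ℝ) (f : Y → ℂ) : Prop :=
  ∀ ε : ℝ, 0 < ε → ∃ C : ℝ, ∀ y ∈ D, ‖f y‖ ≤ C * Real.exp (ε * g y)

lemma SE.nonneg {Y : Type} {D : Set Y} {g : Y → ℝ} {f : Y → ℂ} (h : SE D g f) :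
    ∀ ε : ℝ, 0 < ε → ∃ C : ℝ, 0 ≤ C ∧ ∀ y ∈ D, ‖f y‖ ≤ C * Real.exp (ε * g y) := by
  intro ε hε
  obtain ⟨C, hC⟩ := h ε hε
  refine ⟨max C 0, le_max_right _ _, fun y hy => (hC y hy).trans ?_⟩
  gcongr
  exact le_max_left _ _

lemma SE.add {Y : Type} {D : Set Y} {g : Y → ℝ} {f₁ f₂ : Y → ℂ} (h₁ : SE D g f₁)
    (h₂ : SE D g f₂) : SE D g (fun y => f₁ y + f₂ y) := by
  intro ε hε
  obtain ⟨C₁, h₁⟩ := h₁ ε hε
  obtain ⟨C₂, h₂⟩ := h₂ ε hε
  refine ⟨C₁ + C₂, fun y hy => ?_⟩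
  calc ‖f₁ y + f₂ y‖ ≤ ‖f₁ y‖ + ‖f₂ y‖ := norm_add_le _ _
    _ ≤ C₁ * Real.exp (ε * g y) + C₂ * Real.exp (ε * g y) := add_le_add (h₁ y hy) (h₂ y hy)
    _ = (C₁ + C₂) * Real.exp (ε * g y) := by ring

lemma SE.mul {Y : Type} {D : Set Y} {g : Y → ℝ} {f₁ f₂ : Y → ℂ} (h₁ : SE D g f₁)
    (h₂ : SE D g f₂) : SE D g (fun y => f₁ y * f₂ y) := by
  intro ε hε
  obtain ⟨C₁, p₁, h₁⟩ := h₁.nonneg (ε / 2) (by positivity)
  obtain ⟨C₂, p₂, h₂⟩ := h₂.nonneg (ε / 2) (by positivity)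
  refine ⟨C₁ * C₂, fun y hy => ?_⟩
  calc ‖f₁ y * f₂ y‖ = ‖f₁ y‖ * ‖f₂ y‖ := norm_mul _ _
    _ ≤ (C₁ * Real.exp (ε / 2 * g y)) * (C₂ * Real.exp (ε / 2 * g y)) :=
      mul_le_mul (h₁ y hy) (h₂ y hy) (norm_nonneg _) (by positivity)
    _ = C₁ * C₂ * (Real.exp (ε / 2 * g y) * Real.exp (ε / 2 * g y)) := by ring
    _ = C₁ * C₂ * Real.exp (ε * g y) := by rw [← Real.exp_add]; ring_nf

lemma SE.of_bdd {Y : Type} {D : Set Y} {g : Y → ℝ} {f : Y → ℂ} (hg : ∀ y ∈ D, 0 ≤ g y) (C : ℝ)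
    (h : ∀ y ∈ D, ‖f y‖ ≤ C) : SE D g f := by
  intro ε hε
  refine ⟨|C|, fun y hy => ?_⟩
  have h1 := Real.one_le_exp (mul_nonneg hε.le (hg y hy))
  have h2 := h y hy
  have h3 := le_abs_self C
  nlinarith [abs_nonneg C]

/-! ### the punctured disc -/

lemma U_open (r : ℝ) : IsOpen (U r) := by
  unfold U
  exact (isOpen_lt continuous_const continuous_norm).inter (isOpen_lt continuous_norm continuous_const)

lemma U_ne {r : ℝ} {s : ℂ} (h : s ∈ U r) : s ≠ 0 := norm_pos_iff.1 h.1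

lemma U_mono {r r' : ℝ} (h : r' ≤ r) : U r' ⊆ U r := fun _ hs => ⟨hs.1, hs.2.trans_le h⟩

lemma U_eq (r : ℝ) : U r = exp '' {w | w.re < Real.log r} ∨ r ≤ 0 := by
  by_cases hr : r ≤ 0
  · exact Or.inr hr
  · left
    push Not at hr
    ext s
    constructor
    · rintro ⟨h1, h2⟩
      refine ⟨log s, ?_, exp_log (norm_pos_iff.1 h1)⟩
      simp only [Set.mem_ofPred_eq, log_re]
      exact Real.log_lt_log h1 h2
    · rintro ⟨w, hw, rfl⟩
      refine ⟨norm_pos_iff.2 (exp_ne_zero _), ?_⟩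
      rw [norm_exp]
      exact (Real.lt_log_iff_exp_lt hr).1 hw

lemma U_preconnected (r : ℝ) : IsPreconnected (U r) := by
  rcases U_eq r with h | h
  · rw [h]
    exact (convex_halfSpace_re_lt _).isPreconnected.image _ continuous_exp.continuousOn
  · have : U r = ∅ := by
      ext s
      simp only [U, Set.mem_ofPred_eq, Set.mem_empty_iff_false, iff_false, not_and, not_lt]
      intro h1
      linarith
    rw [this]
    exact isPreconnected_empty

lemma U_nonempty {r : ℝ} (hr : 0 < r) : (U r).Nonempty := by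
  refine ⟨((r / 2 : ℝ) : ℂ), ?_, ?_⟩
  · rw [norm_real, Real.norm_eq_abs, abs_of_pos (by positivity)]; positivity
  · rw [norm_real, Real.norm_eq_abs, abs_of_pos (by positivity)]; linarith

/-- identity theorem on the punctured disc from an initial segment of a ray -/
lemma eq_zero_of_ray {r δ : ℝ} (hδ : 0 < δ) (hr : 0 < r) {ζ : ℂ} (hζ : ‖ζ‖ = 1) {f : ℂ → ℂ}
    (hf : DifferentiableOn ℂ f (U r)) (h : ∀ x : ℝ, 0 < x → x < δ → f (ζ * x) = 0) :
    ∀ s ∈ U r, f s = 0 := by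
  have ha : AnalyticOnNhd ℂ f (U r) := hf.analyticOnNhd (U_open r)
  set x₀ := min r δ / 2 with hx₀
  have hm : 0 < min r δ := lt_min hr hδ
  have hx0 : 0 < x₀ := by positivity
  have hx1 : x₀ < r := by have := min_le_left r δ; linarith
  have hx2 : x₀ < δ := by have := min_le_right r δ; linarith
  have hζ0 : ζ ≠ 0 := by intro h0; rw [h0] at hζ; simp at hζ
  have hn : ∀ x : ℝ, 0 < x → ‖ζ * x‖ = x := by
    intro x hx
    rw [norm_mul, hζ, norm_real, Real.norm_eq_abs, abs_of_pos hx, one_mul]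
  have hmem : ζ * x₀ ∈ U r := ⟨by rw [hn _ hx0]; exact hx0, by rw [hn _ hx0]; exact hx1⟩
  have hfreq : ∃ᶠ z in nhdsWithin (ζ * x₀) {ζ * (x₀ : ℂ)}ᶜ, f z = 0 := by
    have ht : Filter.Tendsto (fun n : ℕ => ζ * ((x₀ + (δ - x₀) / (n + 2) : ℝ) : ℂ)) Filter.atTop
        (nhdsWithin (ζ * x₀) {ζ * (x₀ : ℂ)}ᶜ) := by
      rw [tendsto_nhdsWithin_iff]
      constructor
      · have h1 : Filter.Tendsto (fun n : ℕ => (x₀ + (δ - x₀) / (n + 2) : ℝ)) Filter.atTop
            (nhds (x₀ + 0)) := by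
          apply Filter.Tendsto.add tendsto_const_nhds
          apply Filter.Tendsto.div_atTop tendsto_const_nhds
          exact Filter.tendsto_atTop_add_const_right _ _ tendsto_natCast_atTop_atTop
        rw [add_zero] at h1
        exact ((continuous_ofReal.tendsto x₀).comp h1).const_mul ζ
      · refine Filter.Eventually.of_forall fun n => ?_
        simp only [Set.mem_compl_iff, Set.mem_singleton_iff, mul_eq_mul_left_iff, not_or]
        refine ⟨fun h1 => ?_, hζ0⟩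
        have h2 : (x₀ + (δ - x₀) / (n + 2) : ℝ) = x₀ := by exact_mod_cast h1
        have h3 : 0 < (δ - x₀) / ((n : ℝ) + 2) := div_pos (by linarith) (by positivity)
        linarith
    refine ht.frequently (Filter.Frequently.of_forall fun n => ?_)
    apply h
    · have h3 : 0 < (δ - x₀) / ((n : ℝ) + 2) := div_pos (by linarith) (by positivity)
      linarith
    · have h3 : (δ - x₀) / ((n : ℝ) + 2) ≤ (δ - x₀) / 2 := by
        apply div_le_div_of_nonneg_left (by linarith) (by norm_num)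
        have : (0 : ℝ) ≤ n := Nat.cast_nonneg n
        linarith
      linarith
  have := ha.eqOn_zero_of_preconnected_of_frequently_eq_zero (U_preconnected r) hmem hfreq
  exact fun s hs => this hs

/-- the ring of holomorphic functions on a connected open set has no zero divisors -/
lemma mul_eq_zero_on {Ω : Set ℂ} (hΩ : IsOpen Ω) (hc : IsPreconnected Ω) {f g : ℂ → ℂ}
    (hf : DifferentiableOn ℂ f Ω) (hg : DifferentiableOn ℂ g Ω)
    (h : ∀ s ∈ Ω, f s * g s = 0) : (∀ s ∈ Ω, f s = 0) ∨ ∀ s ∈ Ω, g s = 0 := by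
  by_cases h1 : ∀ s ∈ Ω, f s = 0
  · exact Or.inl h1
  · right
    push Not at h1
    obtain ⟨s₀, hs₀, hne⟩ := h1
    have ha : AnalyticOnNhd ℂ g Ω := hg.analyticOnNhd hΩ
    have hev : ∀ᶠ s in nhds s₀, g s = 0 := by
      have h2 : ∀ᶠ s in nhds s₀, f s ≠ 0 :=
        (hf.differentiableAt (hΩ.mem_nhds hs₀)).continuousAt.eventually_ne hne
      filter_upwards [h2, hΩ.mem_nhds hs₀] with s h3 h4
      exact (mul_eq_zero.1 (h s h4)).resolve_left h3
    have := ha.eqOn_zero_of_preconnected_of_eventuallyEq_zero hc hs₀ hev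
    exact fun s hs => this hs

lemma mul_zero_U {r : ℝ} {f g : ℂ → ℂ} (hf : DifferentiableOn ℂ f (U r))
    (hg : DifferentiableOn ℂ g (U r)) (h : ∀ s ∈ U r, f s * g s = 0) :
    (∀ s ∈ U r, f s = 0) ∨ ∀ s ∈ U r, g s = 0 :=
  mul_eq_zero_on (U_open r) (U_preconnected r) hf hg h

/-! ### slow functions -/

lemma slow_iff {m : ℕ} {r : ℝ} {f : ℂ → ℂ} :
    Slow m r f ↔ DifferentiableOn ℂ f (U r) ∧ SE (U r) (fun s => ‖s‖⁻¹ ^ m) f := Iff.rfl

lemma Slow.add {m : ℕ} {r : ℝ} {f g : ℂ → ℂ} (hf : Slow m r f) (hg : Slow m r g) :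
    Slow m r (fun s => f s + g s) :=
  ⟨hf.1.add hg.1, SE.add hf.2 hg.2⟩

lemma Slow.mul {m : ℕ} {r : ℝ} {f g : ℂ → ℂ} (hf : Slow m r f) (hg : Slow m r g) :
    Slow m r (fun s => f s * g s) :=
  ⟨hf.1.mul hg.1, SE.mul hf.2 hg.2⟩

lemma Slow.of_bdd {m : ℕ} {r : ℝ} {f : ℂ → ℂ} (hf : DifferentiableOn ℂ f (U r)) (C : ℝ)
    (h : ∀ s ∈ U r, ‖f s‖ ≤ C) : Slow m r f :=
  ⟨hf, SE.of_bdd (fun s _ => by positivity) C h⟩

lemma Slow.const (m : ℕ) (r : ℝ) (c : ℂ) : Slow m r (fun _ => c) :=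
  Slow.of_bdd (differentiableOn_const c) ‖c‖ fun _ _ => le_rfl

lemma Slow.congr {m : ℕ} {r : ℝ} {f g : ℂ → ℂ} (hf : Slow m r f) (h : ∀ s ∈ U r, g s = f s) :
    Slow m r g := by
  refine ⟨hf.1.congr h, fun ε hε => ?_⟩
  obtain ⟨C, hC⟩ := hf.2 ε hε
  exact ⟨C, fun s hs => by rw [h s hs]; exact hC s hs⟩

lemma Slow.sum {m : ℕ} {r : ℝ} {α : Type} (S : Finset α) (f : α → ℂ → ℂ)
    (h : ∀ a ∈ S, Slow m r (f a)) : Slow m r (fun s => ∑ a ∈ S, f a s) := by
  classical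
  induction S using Finset.induction_on with
  | empty => simpa using Slow.const m r 0
  | insert a S ha ih =>
    have h1 := (h a (Finset.mem_insert_self a S)).add
      (ih fun b hb => h b (Finset.mem_insert_of_mem hb))
    exact h1.congr fun s _ => Finset.sum_insert ha

lemma Slow.prod {m : ℕ} {r : ℝ} {α : Type} (S : Finset α) (f : α → ℂ → ℂ)
    (h : ∀ a ∈ S, Slow m r (f a)) : Slow m r (fun s => ∏ a ∈ S, f a s) := by
  classical
  induction S using Finset.induction_on with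
  | empty => simpa using Slow.const m r 1
  | insert a S ha ih =>
    have h1 := (h a (Finset.mem_insert_self a S)).mul
      (ih fun b hb => h b (Finset.mem_insert_of_mem hb))
    exact h1.congr fun s _ => Finset.prod_insert ha

lemma Slow.pow {m : ℕ} {r : ℝ} {f : ℂ → ℂ} (hf : Slow m r f) (n : ℕ) :
    Slow m r (fun s => f s ^ n) := by
  induction n with
  | zero => simpa using Slow.const m r 1
  | succ n ih => exact (ih.mul hf).congr fun s _ => pow_succ _ _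

lemma Slow.neg {m : ℕ} {r : ℝ} {f : ℂ → ℂ} (hf : Slow m r f) : Slow m r (fun s => - f s) :=
  ((Slow.const m r (-1)).mul hf).congr fun s _ => by ring

lemma Slow.sub {m : ℕ} {r : ℝ} {f g : ℂ → ℂ} (hf : Slow m r f) (hg : Slow m r g) :
    Slow m r (fun s => f s - g s) :=
  (hf.add hg.neg).congr fun s _ => by ring

/-- functions of polynomial growth are slow -/
lemma Slow.of_poly {m : ℕ} {r : ℝ} (hm : 1 ≤ m) {f : ℂ → ℂ} (hf : DifferentiableOn ℂ f (U r))
    (D : ℕ) (C : ℝ) (h : ∀ s ∈ U r, ‖f s‖ ≤ C * ‖s‖⁻¹ ^ D) (hr : r ≤ 1) : Slow m r f := by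
  refine ⟨hf, fun ε hε => ?_⟩
  refine ⟨|C| * (D.factorial / ε ^ D), fun s hs => (h s hs).trans ?_⟩
  have hs1 : (1 : ℝ) ≤ ‖s‖⁻¹ := by
    rw [one_le_inv₀ hs.1]; exact hs.2.le.trans hr
  have h1 : (ε * ‖s‖⁻¹) ^ D / D.factorial ≤ Real.exp (ε * ‖s‖⁻¹) :=
    Real.pow_div_factorial_le_exp _ (by positivity) D
  have h2 : Real.exp (ε * ‖s‖⁻¹) ≤ Real.exp (ε * ‖s‖⁻¹ ^ m) := by
    apply Real.exp_le_exp.2
    apply mul_le_mul_of_nonneg_left _ hε.le
    calc ‖s‖⁻¹ = ‖s‖⁻¹ ^ 1 := (pow_one _).symm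
      _ ≤ ‖s‖⁻¹ ^ m := pow_le_pow_right₀ hs1 hm
  have h3 : ‖s‖⁻¹ ^ D = (D.factorial / ε ^ D) * ((ε * ‖s‖⁻¹) ^ D / D.factorial) := by
    have : (D.factorial : ℝ) ≠ 0 := by positivity
    rw [mul_pow]
    field_simp
  calc C * ‖s‖⁻¹ ^ D ≤ |C| * ‖s‖⁻¹ ^ D := by
        apply mul_le_mul_of_nonneg_right (le_abs_self C) (by positivity)
    _ = |C| * (D.factorial / ε ^ D) * ((ε * ‖s‖⁻¹) ^ D / D.factorial) := by rw [h3]; ring
    _ ≤ |C| * (D.factorial / ε ^ D) * Real.exp (ε * ‖s‖⁻¹ ^ m) := by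
        apply mul_le_mul_of_nonneg_left (h1.trans h2) (by positivity)

lemma Slow.of_mer {m : ℕ} {r : ℝ} (hm : 1 ≤ m) (hr : r ≤ 1) {f : ℂ → ℂ} (hf : Mer r f) :
    Slow m r f := by
  obtain ⟨h1, D, C, h2⟩ := hf
  exact Slow.of_poly hm h1 D C h2 hr

/-- exponentials of functions of smaller order are slow -/
lemma Slow.exp_of_lower {m : ℕ} {r : ℝ} (hm : 1 ≤ m) {f : ℂ → ℂ}
    (hf : DifferentiableOn ℂ f (U r)) (K : ℝ) (h : ∀ s ∈ U r, ‖f s‖ ≤ K * ‖s‖⁻¹ ^ (m - 1)) :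
    Slow m r (fun s => exp (f s)) := by
  refine ⟨hf.cexp, fun ε hε => ?_⟩
  -- `K x^(m-1) ≤ ε x^m + C`
  refine ⟨Real.exp (|K| * (|K| / ε) ^ (m - 1)), fun s hs => ?_⟩
  have hx : 0 < ‖s‖⁻¹ := inv_pos.2 hs.1
  set x := ‖s‖⁻¹
  rw [norm_exp, ← Real.exp_add]
  apply Real.exp_le_exp.2
  have h1 : (f s).re ≤ K * x ^ (m - 1) := (re_le_norm _).trans (h s hs)
  have h2 : K * x ^ (m - 1) ≤ |K| * x ^ (m - 1) :=
    mul_le_mul_of_nonneg_right (le_abs_self K) (by positivity)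
  have h3 : |K| * x ^ (m - 1) ≤ |K| * (|K| / ε) ^ (m - 1) + ε * x ^ m := by
    rcases le_or_gt x (|K| / ε) with hle | hlt
    · have h4 : |K| * x ^ (m - 1) ≤ |K| * (|K| / ε) ^ (m - 1) := by gcongr
      have h5 : 0 ≤ ε * x ^ m := by positivity
      linarith
    · have h4 : |K| ≤ ε * x := by
        have := (div_lt_iff₀ hε).1 hlt
        linarith
      have h5 : |K| * x ^ (m - 1) ≤ ε * x * x ^ (m - 1) :=
        mul_le_mul_of_nonneg_right h4 (by positivity)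
      have h6 : ε * x * x ^ (m - 1) = ε * x ^ m := by
        rw [mul_assoc, mul_comm x, ← pow_succ]
        congr 2
        omega
      have h7 : 0 ≤ |K| * (|K| / ε) ^ (m - 1) := by positivity
      linarith
  linarith

/-! ### exponential sums, generically -/

section ES

variable {Y : Type} (D : Set Y) (S : (Y → ℂ) → Prop) (χ : ℂ → Y → ℂ)

/-- exponential sums -/
def ES (f : Y → ℂ) : Prop :=
  ∃ (W : Finset ℂ) (R : ℂ → Y → ℂ), (∀ ω ∈ W, S (R ω)) ∧ ∀ y ∈ D, f y = ∑ ω ∈ W, R ω y * χ ω y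

variable {D S χ}

lemma ES.congr {f g : Y → ℂ} (hf : ES D S χ f) (h : ∀ y ∈ D, g y = f y) : ES D S χ g := by
  obtain ⟨W, R, h1, h2⟩ := hf
  exact ⟨W, R, h1, fun y hy => by rw [h y hy, h2 y hy]⟩

lemma ES.single {g : Y → ℂ} (hg : S g) (ω : ℂ) : ES D S χ (fun y => g y * χ ω y) :=
  ⟨{ω}, fun _ => g, fun _ _ => hg, fun y _ => by rw [Finset.sum_singleton]⟩

lemma ES.zero : ES D S χ (fun _ => 0) :=
  ⟨∅, fun _ _ => 0, fun ω h => absurd h (Finset.notMem_empty ω), fun y _ => by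
    rw [Finset.sum_empty]⟩

lemma ES.add (h0 : S (fun _ => 0)) (hadd : ∀ f g, S f → S g → S (fun y => f y + g y))
    {f g : Y → ℂ} (hf : ES D S χ f) (hg : ES D S χ g) : ES D S χ (fun y => f y + g y) := by
  classical
  obtain ⟨W, R, h1, h2⟩ := hf
  obtain ⟨W', R', h1', h2'⟩ := hg
  refine ⟨W ∪ W', fun ω y => (if ω ∈ W then R ω y else 0) + (if ω ∈ W' then R' ω y else 0), ?_, ?_⟩
  · intro ω _
    apply hadd
    · by_cases h : ω ∈ W
      · simp only [if_pos h]; exact h1 ω h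
      · simp only [if_neg h]; exact h0
    · by_cases h : ω ∈ W'
      · simp only [if_pos h]; exact h1' ω h
      · simp only [if_neg h]; exact h0
  · intro y hy
    simp only [add_mul, Finset.sum_add_distrib, ite_mul, zero_mul]
    rw [h2 y hy, h2' y hy, Finset.sum_ite_mem, Finset.sum_ite_mem]
    congr 1
    · rw [Finset.inter_eq_right.2 Finset.subset_union_left]
    · rw [Finset.inter_eq_right.2 Finset.subset_union_right]

lemma ES.sum (h0 : S (fun _ => 0)) (hadd : ∀ f g, S f → S g → S (fun y => f y + g y))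
    {α : Type} (A : Finset α) (f : α → Y → ℂ) (hf : ∀ a ∈ A, ES D S χ (f a)) :
    ES D S χ (fun y => ∑ a ∈ A, f a y) := by
  classical
  induction A using Finset.induction_on with
  | empty => simpa using ES.zero
  | insert a A ha ih =>
    have h1 := ES.add h0 hadd (hf a (Finset.mem_insert_self a A))
      (ih fun b hb => hf b (Finset.mem_insert_of_mem hb))
    exact h1.congr fun s _ => Finset.sum_insert ha

lemma ES.mul (h0 : S (fun _ => 0)) (hadd : ∀ f g, S f → S g → S (fun y => f y + g y))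
    (hmul : ∀ f g, S f → S g → S (fun y => f y * g y))
    (hχ : ∀ a b y, χ (a + b) y = χ a y * χ b y)
    {f g : Y → ℂ} (hf : ES D S χ f) (hg : ES D S χ g) : ES D S χ (fun y => f y * g y) := by
  obtain ⟨W, R, h1, h2⟩ := hf
  obtain ⟨W', R', h1', h2'⟩ := hg
  have h3 : ES D S χ (fun y => ∑ ω ∈ W, ∑ ω' ∈ W', (R ω y * R' ω' y) * χ (ω + ω') y) := by
    apply ES.sum h0 hadd
    intro ω hω
    apply ES.sum h0 hadd
    intro ω' hω'
    exact ES.single (hmul _ _ (h1 ω hω) (h1' ω' hω')) _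
  refine h3.congr fun y hy => ?_
  rw [h2 y hy, h2' y hy, Finset.sum_mul_sum]
  refine Finset.sum_congr rfl fun ω _ => Finset.sum_congr rfl fun ω' _ => ?_
  rw [hχ]
  ring

lemma ES.of {g : Y → ℂ} (hg : S g) (hχ0 : ∀ y ∈ D, χ 0 y = 1) : ES D S χ g :=
  (ES.single hg 0).congr fun y hy => by rw [hχ0 y hy, mul_one]

lemma ES.pow (h0 : S (fun _ => 0)) (h1 : S (fun _ => 1))
    (hadd : ∀ f g, S f → S g → S (fun y => f y + g y))
    (hmul : ∀ f g, S f → S g → S (fun y => f y * g y))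
    (hχ : ∀ a b y, χ (a + b) y = χ a y * χ b y) (hχ0 : ∀ y ∈ D, χ 0 y = 1)
    {f : Y → ℂ} (hf : ES D S χ f) (n : ℕ) : ES D S χ (fun y => f y ^ n) := by
  induction n with
  | zero => simpa using ES.of h1 hχ0
  | succ n ih => exact (ES.mul h0 hadd hmul hχ ih hf).congr fun s _ => pow_succ _ _

lemma ES.prod (h0 : S (fun _ => 0)) (h1 : S (fun _ => 1))
    (hadd : ∀ f g, S f → S g → S (fun y => f y + g y))
    (hmul : ∀ f g, S f → S g → S (fun y => f y * g y))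
    (hχ : ∀ a b y, χ (a + b) y = χ a y * χ b y) (hχ0 : ∀ y ∈ D, χ 0 y = 1)
    {α : Type} (A : Finset α) (f : α → Y → ℂ) (hf : ∀ a ∈ A, ES D S χ (f a)) :
    ES D S χ (fun y => ∏ a ∈ A, f a y) := by
  classical
  induction A using Finset.induction_on with
  | empty => simpa using ES.of h1 hχ0
  | insert a A ha ih =>
    have h1 := ES.mul h0 hadd hmul hχ (hf a (Finset.mem_insert_self a A))
      (ih fun b hb => hf b (Finset.mem_insert_of_mem hb))
    exact h1.congr fun s _ => Finset.prod_insert ha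

end ES

/-! ### exponential polynomials on the punctured disc -/

lemma EP_iff {m : ℕ} {r : ℝ} {f : ℂ → ℂ} :
    EP m r f ↔ ES (U r) (Slow m r) (fun ω s => exp (ω * s⁻¹ ^ m)) f := Iff.rfl

section EPsec

variable {m : ℕ} {r : ℝ}

private lemma e0 : Slow m r (fun _ => 0) := Slow.const m r 0
private lemma e1 : Slow m r (fun _ => 1) := Slow.const m r 1
private lemma ea : ∀ f g : ℂ → ℂ, Slow m r f → Slow m r g → Slow m r (fun y => f y + g y) :=
  fun _ _ h1 h2 => h1.add h2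
private lemma em : ∀ f g : ℂ → ℂ, Slow m r f → Slow m r g → Slow m r (fun y => f y * g y) :=
  fun _ _ h1 h2 => h1.mul h2
private lemma ex : ∀ a b s : ℂ, exp ((a + b) * s⁻¹ ^ m) = exp (a * s⁻¹ ^ m) * exp (b * s⁻¹ ^ m) := by
  intro a b s
  rw [add_mul, exp_add]
private lemma ex0 : ∀ s ∈ U r, exp (0 * s⁻¹ ^ m) = 1 := by
  intro s _
  rw [zero_mul, exp_zero]

lemma EP.congr {f g : ℂ → ℂ} (hf : EP m r f) (h : ∀ s ∈ U r, g s = f s) : EP m r g :=
  ES.congr hf h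

lemma EP.single {g : ℂ → ℂ} (hg : Slow m r g) (ω : ℂ) :
    EP m r (fun s => g s * exp (ω * s⁻¹ ^ m)) :=
  ES.single (D := U r) (S := Slow m r) (χ := fun ω s => exp (ω * s⁻¹ ^ m)) hg ω

lemma EP.of_slow {g : ℂ → ℂ} (hg : Slow m r g) : EP m r g := ES.of hg ex0

lemma EP.const (c : ℂ) : EP m r (fun _ => c) := EP.of_slow (Slow.const m r c)

lemma EP.add {f g : ℂ → ℂ} (hf : EP m r f) (hg : EP m r g) : EP m r (fun s => f s + g s) :=
  ES.add e0 ea hf hg

lemma EP.mul {f g : ℂ → ℂ} (hf : EP m r f) (hg : EP m r g) : EP m r (fun s => f s * g s) :=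
  ES.mul e0 ea em ex hf hg

lemma EP.neg {f : ℂ → ℂ} (hf : EP m r f) : EP m r (fun s => - f s) :=
  ((EP.const (-1)).mul hf).congr fun s _ => by ring

lemma EP.sub {f g : ℂ → ℂ} (hf : EP m r f) (hg : EP m r g) : EP m r (fun s => f s - g s) :=
  (hf.add hg.neg).congr fun s _ => by ring

lemma EP.sum {α : Type} (A : Finset α) (f : α → ℂ → ℂ) (hf : ∀ a ∈ A, EP m r (f a)) :
    EP m r (fun s => ∑ a ∈ A, f a s) := ES.sum e0 ea A f hf

lemma EP.prod {α : Type} (A : Finset α) (f : α → ℂ → ℂ) (hf : ∀ a ∈ A, EP m r (f a)) :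
    EP m r (fun s => ∏ a ∈ A, f a s) := ES.prod e0 e1 ea em ex ex0 A f hf

lemma EP.pow {f : ℂ → ℂ} (hf : EP m r f) (n : ℕ) : EP m r (fun s => f s ^ n) :=
  ES.pow e0 e1 ea em ex ex0 hf n

lemma EP.diff {f : ℂ → ℂ} (hf : EP m r f) : DifferentiableOn ℂ f (U r) := by
  obtain ⟨W, R, h1, h2⟩ := hf
  have h3 : DifferentiableOn ℂ (fun s => ∑ ω ∈ W, R ω s * exp (ω * s⁻¹ ^ m)) (U r) := by
    apply DifferentiableOn.fun_sum
    intro ω hω
    apply (h1 ω hω).1.mul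
    apply DifferentiableOn.cexp
    apply DifferentiableOn.const_mul
    apply DifferentiableOn.pow
    exact differentiableOn_id.inv fun s hs => U_ne hs
  exact h3.congr h2

/-- exponentials of `a s^(-m) + h` with `h` of smaller order -/
lemma EP.exp_lower (hm : 1 ≤ m) (a : ℂ) {h : ℂ → ℂ} (hh : DifferentiableOn ℂ h (U r)) (K : ℝ)
    (hK : ∀ s ∈ U r, ‖h s‖ ≤ K * ‖s‖⁻¹ ^ (m - 1)) (v : ℂ) :
    EP m r (fun s => exp (v * (a * s⁻¹ ^ m + h s))) := by
  have h1 : Slow m r (fun s => exp (v * h s)) := by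
    apply Slow.exp_of_lower hm (hh.const_mul v) (‖v‖ * K)
    intro s hs
    rw [norm_mul, mul_assoc]
    exact mul_le_mul_of_nonneg_left (hK s hs) (norm_nonneg _)
  refine (EP.single h1 (v * a)).congr fun s _ => ?_
  rw [← exp_add]
  congr 1
  ring

end EPsec

end Pool.Agent.W175.GF
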