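import Pool.Agent.W175.GF.Homog

set_option autoImplicit false

/-!
Crossing the rays of poles.
-/

namespace Pool.Agent.W175.GF

open Complex Filter Topology

variable {m : ℕ} {r : ℝ} {ι : Type} [Fintype ι] {a : ι → ℂ} {h : ι → ℂ → ℂ} {K : ℝ}

/-- reflection formula -/
lemma FJ_id (w : ℂ) (hw : ∀ n : ℕ, w ≠ n) :
    (Gamma w)⁻¹ = (1 - exp (2 * Real.pi * I * w)) * FJ w := by
  have hw0 : w ≠ 0 := by simpa using hw 0
  by_cases hneg : ∃ n : ℕ, w = -n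
  · obtain ⟨n, rfl⟩ := hneg
    have h1 : exp (2 * Real.pi * I * (-(n : ℂ))) = 1 := by
      rw [exp_eq_one_iff]
      exact ⟨-(n : ℤ), by push_cast; ring⟩
    rw [Gamma_neg_nat_eq_zero, h1]
    simp
  · push Not at hneg
    have hpi : (Real.pi : ℂ) ≠ 0 := by exact_mod_cast Real.pi_ne_zero
    have hΓ : Gamma w ≠ 0 := Gamma_ne_zero hneg
    have h1 : Gamma (1 - w) = -w * Gamma (-w) := by
      rw [← Gamma_add_one (-w) (neg_ne_zero.2 hw0)]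
      congr 1; ring
    have h2 := Gamma_mul_Gamma_one_sub w
    have h3 : Gamma (1 - w) ≠ 0 := by
      apply Gamma_ne_zero
      intro n hn
      apply hw (n + 1)
      push_cast
      linear_combination -hn
    have hsin : sin (Real.pi * w) ≠ 0 := by
      intro h0
      rw [h0, div_zero] at h2
      exact (mul_ne_zero hΓ h3) h2
    have h4 : (Gamma w)⁻¹ = Gamma (1 - w) * sin (Real.pi * w) / Real.pi := by
      rw [eq_div_iff hpi, inv_mul_eq_div, div_eq_iff hΓ]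
      have h5 : Gamma w * Gamma (1 - w) * sin (Real.pi * w) = Real.pi := by
        rw [h2]; field_simp
      linear_combination -h5
    rw [h4, h1]
    unfold FJ
    have h6 : sin (Real.pi * w) = (exp (-(I * Real.pi * w)) - exp (I * Real.pi * w)) * I / 2 := by
      rw [sin]
      congr 3
      · ring_nf
      · ring_nf
    have h7 : (1 - exp (2 * Real.pi * I * w)) * exp (-(I * Real.pi * w)) =
        exp (-(I * Real.pi * w)) - exp (I * Real.pi * w) := by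
      rw [sub_mul, one_mul, ← exp_add]
      congr 2
      ring
    rw [h6]
    have h8 : (1 - exp (2 * Real.pi * I * w)) * (w * Gamma (-w) * exp (-(I * Real.pi * w)) /
        (2 * Real.pi * I)) = w * Gamma (-w) * ((1 - exp (2 * Real.pi * I * w)) *
        exp (-(I * Real.pi * w))) / (2 * Real.pi * I) := by ring
    rw [h8, h7]
    have hI : I ≠ 0 := I_ne_zero
    field_simp
    have hI2 : I ^ 2 = -1 := I_sq
    ring_nf
    rw [hI2]
    ring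

/-- slow factor beyond the ray of poles -/
lemma slow_J (hJ : S_REGJ) (D : DT m r ι a h K) {ζ : ℂ} (hζ : ‖ζ‖ = 1) (i : ι) {β : ℝ}
    (hβ : 0 < β) (hb : a i * ζ⁻¹ ^ m = β * I) {ψ₁ ψ₂ : ℝ}
    (h1 : 0 < ψ₁) (h12 : ψ₁ < ψ₂) (h2 : ψ₂ < Real.pi / 2) :
    ∃ ρ₀ : ℝ, 1 ≤ ρ₀ ∧ ∀ ρ, ρ₀ ≤ ρ → r⁻¹ ^ m ≤ ρ →
    SlowH ψ₁ ψ₂ ρ (fun τ => FJ (a i * (sg ζ m τ)⁻¹ ^ m + h i (sg ζ m τ)) *
      exp (mn (a i * ζ⁻¹ ^ m) τ)) ∧
    ∀ ψ ∈ Set.Ioo ψ₁ ψ₂, ∀ τ ∈ Hp ψ ρ, ∀ n : ℕ, a i * (sg ζ m τ)⁻¹ ^ m + h i (sg ζ m τ) ≠ n := by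
  have hm' : (0 : ℝ) < m := by exact_mod_cast (by have := D.hm; omega : 0 < m)
  have hθ0 : 0 ≤ ((m : ℝ) - 1) / m := by
    apply div_nonneg _ hm'.le
    have : (1 : ℝ) ≤ m := by exact_mod_cast D.hm
    linarith
  have hθ1 : ((m : ℝ) - 1) / m < 1 := by rw [div_lt_one hm']; linarith
  obtain ⟨ρ₀, hρ₀, hn, hbd⟩ := hJ β (((m : ℝ) - 1) / m) K ψ₁ ψ₂ hβ h1 h12 h2 hθ0 hθ1
  refine ⟨ρ₀, hρ₀, fun ρ hρ hρ2 => ?_⟩
  have hρ0 : 0 ≤ ρ := by linarith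
  have hfacts : ∀ ψ ∈ Set.Ioo ψ₁ ψ₂, ∀ τ ∈ Hp ψ ρ, τ ∈ slitPlane ∧ sg ζ m τ ∈ U r ∧
      ‖h i (sg ζ m τ)‖ ≤ K * ‖τ‖ ^ (((m : ℝ) - 1) / m) := by
    intro ψ hψ τ hτ
    have hψ' : |ψ| < Real.pi / 2 := abs_lt.2 ⟨by linarith [hψ.1], by linarith [hψ.2]⟩
    have h3 := Hp_slit hψ' hρ0 hτ
    have h4 := sg_mem hζ D.hm D.hr (lt_of_le_of_lt hρ2 (Hp_norm hτ))
    refine ⟨h3, h4, ?_⟩
    have := D.hK i _ h4
    rwa [lower_bd hζ D.hm (slitPlane_ne_zero h3)] at this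
  have hn' : ∀ ψ ∈ Set.Ioo ψ₁ ψ₂, ∀ τ ∈ Hp ψ ρ, ∀ n : ℕ,
      a i * (sg ζ m τ)⁻¹ ^ m + h i (sg ζ m τ) ≠ n := by
    intro ψ hψ τ hτ n
    obtain ⟨h3, h4, h5⟩ := hfacts ψ hψ τ hτ
    have := hn ψ ⟨hψ.1.le, hψ.2.le⟩ τ (Hp_anti hρ hτ) _ h5 n
    rwa [sg_inv_pow D.hm (slitPlane_ne_zero h3), ← mul_assoc, hb]
  refine ⟨?_, hn'⟩
  intro ψ hψ
  have hsd : DifferentiableOn ℂ (sg ζ m) (Hp ψ ρ) :=
    (sg_diff ζ m).mono fun τ hτ => (hfacts ψ hψ τ hτ).1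
  have hzd : DifferentiableOn ℂ (fun τ => a i * (sg ζ m τ)⁻¹ ^ m + h i (sg ζ m τ)) (Hp ψ ρ) := by
    apply DifferentiableOn.add
    · apply DifferentiableOn.const_mul
      apply DifferentiableOn.pow
      exact hsd.inv fun τ _ => sg_ne hζ m τ
    · exact (D.hh i).comp hsd fun τ hτ => (hfacts ψ hψ τ hτ).2.1
  constructor
  · apply DifferentiableOn.mul
    · unfold FJ
      apply DifferentiableOn.div_const
      apply DifferentiableOn.mul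
      · apply DifferentiableOn.mul hzd
        intro τ hτ
        have h6 : DifferentiableAt ℂ Gamma (-(a i * (sg ζ m τ)⁻¹ ^ m + h i (sg ζ m τ))) := by
          apply differentiableAt_Gamma
          intro n hn2
          exact hn' ψ hψ τ hτ n (neg_injective hn2)
        exact h6.comp_differentiableWithinAt τ (hzd.neg τ hτ)
      · exact (hzd.const_mul _).neg.cexp
    · exact ((mn_diff _).mono fun τ hτ => (hfacts ψ hψ τ hτ).1).cexp
  · intro ε hε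
    obtain ⟨C, hC⟩ := hbd ε hε
    refine ⟨C, fun τ hτ => ?_⟩
    obtain ⟨h3, h4, h5⟩ := hfacts ψ hψ τ hτ
    have h6 := hC ψ ⟨hψ.1.le, hψ.2.le⟩ τ (Hp_anti hρ hτ) _ h5
    simp only
    rw [sg_inv_pow D.hm (slitPlane_ne_zero h3), ← mul_assoc, hb]
    exact h6

/-- a fan above zero -/
lemma exists_fan_pos (b : ι → ℂ) (hb : ∀ i, Dir (b i)) :
    ∃ δ : ℝ, 0 < δ ∧ δ < Real.pi / 2 ∧ ∀ i, (b i).re ≠ 0 → ∀ ψ ∈ Set.Ioo (δ / 2) δ,
      |arg (b i) + ψ| < Real.pi / 2 := by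
  have h1 : ∀ i, ∀ᶠ δ in 𝓝[>] (0 : ℝ), (b i).re ≠ 0 → ∀ ψ ∈ Set.Ioo (δ / 2) δ,
      |arg (b i) + ψ| < Real.pi / 2 := by
    intro i
    rcases hb i with hb | hb
    · have h2 := abs_arg_lt_pi_div_two_iff.2 (Or.inl hb)
      have h3 : 0 < Real.pi / 2 - |arg (b i)| := by linarith
      filter_upwards [Ioo_mem_nhdsGT h3] with δ hδ _ ψ hψ
      have h4 := abs_add_le (arg (b i)) ψ
      have h5 : |ψ| < δ := abs_lt.2 ⟨by linarith [hψ.1, hδ.1], hψ.2⟩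
      linarith [hδ.2]
    · exact Filter.Eventually.of_forall fun δ h => absurd hb.1 h
  have h2 : ∀ᶠ δ in 𝓝[>] (0 : ℝ), δ ∈ Set.Ioo 0 (Real.pi / 2) := Ioo_mem_nhdsGT (by positivity)
  obtain ⟨δ, hδ, hδ'⟩ := ((eventually_all.2 h1).and h2).exists
  exact ⟨δ, hδ'.1, hδ'.2, hδ⟩

/-- the torus factor -/
noncomputable def gam (J : Finset ι) (β : ι → ℝ) (h : ι → ℂ → ℂ) (k : ι → ℕ) (u s : ℂ) : ℂ :=
  ∏ i ∈ J, (1 - exp (2 * Real.pi * I * h i s - 2 * Real.pi * β i * u)) ^ k i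

/-- the relation after crossing -/
lemma cross (hS : S_SEP) (hR : S_REG) (hJ : S_REGJ) (D : DT m r ι a h K) {ζ : ℂ} (hζ : ‖ζ‖ = 1)
    (hdir : ∀ i, Dir (a i * ζ⁻¹ ^ m)) (N : Finset (ι → ℕ)) (p : ℂ × ℂ) (ω : (ι → ℕ) → ℂ)
    (R : (ι → ℕ) → ℂ → ℂ) (hRs : ∀ k ∈ N, Slow m r (R k))
    (hp1 : ∀ k ∈ N, p.1 = - ∑ i, k i * (a i * ζ⁻¹ ^ m))
    (hp2 : ∀ k ∈ N, p.2 = ω k * ζ⁻¹ ^ m - ∑ i, k i * kap (a i * ζ⁻¹ ^ m))
    (hrel : ∀ s ∈ U r, ∑ k ∈ N, R k s * exp (ω k * s⁻¹ ^ m) *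
        ∏ i, (Gamma (a i * s⁻¹ ^ m + h i s))⁻¹ ^ k i = 0)
    (J : Finset ι) (hJm : ∀ i, i ∈ J ↔ (a i * ζ⁻¹ ^ m).re = 0)
    (M : ℕ) (hM : ∀ k ∈ N, ∀ i, k i ≤ M) (k₀ : ι → ℕ) (u₁ u₂ : ℂ) :
    ∀ s ∈ U r, ∑ k ∈ N, (R k s *
      (gam J (fun i => (a i * ζ⁻¹ ^ m).im) h k u₁ s * gam J (fun i => (a i * ζ⁻¹ ^ m).im) h k₀ u₂ s -
       gam J (fun i => (a i * ζ⁻¹ ^ m).im) h k u₂ s * gam J (fun i => (a i * ζ⁻¹ ^ m).im) h k₀ u₁ s) *
      exp (ω k * s⁻¹ ^ m) *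
      ∏ i ∈ J, (1 - exp (2 * Real.pi * I * (a i * s⁻¹ ^ m + h i s))) ^ (M - k i)) *
        ∏ i, (Gamma (a i * s⁻¹ ^ m + h i s))⁻¹ ^ k i = 0 := by
  classical
  set b : ι → ℂ := fun i => a i * ζ⁻¹ ^ m with hb
  set β : ι → ℝ := fun i => (b i).im with hβ
  have hJb : ∀ i ∈ J, b i = β i * I := by
    intro i hi
    apply Complex.ext
    · simp only [hβ, mul_re, ofReal_re, I_re, mul_zero, ofReal_im, I_im, mul_one, sub_self]
      exact (hJm i).1 hi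
    · simp [hβ]
  have hJβ : ∀ i ∈ J, 0 < β i := by
    intro i hi
    rcases hdir i with h1 | h1
    · exact absurd ((hJm i).1 hi) (ne_of_gt h1)
    · exact h1.2
  obtain ⟨δ, hδ, hδ2, hfan⟩ := exists_fan_pos b hdir
  have hδ12 : δ / 2 < δ := by linarith
  -- a common ρ
  have hρJ : ∀ i, ∀ᶠ ρ in atTop, i ∈ J →
      (SlowH (δ / 2) δ ρ (fun τ => FJ (a i * (sg ζ m τ)⁻¹ ^ m + h i (sg ζ m τ)) *
        exp (mn (a i * ζ⁻¹ ^ m) τ)) ∧
      ∀ ψ ∈ Set.Ioo (δ / 2) δ, ∀ τ ∈ Hp ψ ρ, ∀ n : ℕ,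
        a i * (sg ζ m τ)⁻¹ ^ m + h i (sg ζ m τ) ≠ n) := by
    intro i
    by_cases hi : i ∈ J
    · obtain ⟨ρ₀, -, h2⟩ := slow_J hJ D hζ i (hJβ i hi) (hJb i hi) (by positivity : 0 < δ / 2)
        hδ12 hδ2
      filter_upwards [eventually_ge_atTop ρ₀, eventually_ge_atTop (r⁻¹ ^ m)] with ρ h3 h4 _
      exact h2 ρ h3 h4
    · exact Filter.Eventually.of_forall fun ρ h => absurd h hi
  obtain ⟨ρ, hρJ', hρ1, hρ2⟩ := ((eventually_all.2 hρJ).and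
    ((eventually_ge_atTop (1 : ℝ)).and (eventually_ge_atTop (r⁻¹ ^ m)))).exists
  have hρ0 : 0 ≤ ρ := by linarith
  set X : ι → ℂ → ℂ := fun i τ => if i ∈ J then FJ (a i * (sg ζ m τ)⁻¹ ^ m + h i (sg ζ m τ)) else
    (Gamma (a i * (sg ζ m τ)⁻¹ ^ m + h i (sg ζ m τ)))⁻¹ with hX
  have hXs : ∀ i, SlowH (δ / 2) δ ρ (fun τ => X i τ * exp (mn (b i) τ)) := by
    intro i
    by_cases hi : i ∈ J
    · refine (hρJ' i hi).1.congr fun ψ hψ τ hτ => ?_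
      simp only [hX, if_pos hi, hb]
    · have h1 : (b i).re ≠ 0 := fun h0 => hi ((hJm i).2 h0)
      refine (slow_reg hR D hζ i (by linarith [Real.pi_pos]) hδ2 hρ2 hρ1 (hdir i).arg_le
        (hfan i h1)).congr fun ψ hψ τ hτ => ?_
      simp only [hX, if_neg hi, hb]
  have hslit : ∀ ψ ∈ Set.Ioo (δ / 2) δ, ∀ τ ∈ Hp ψ ρ, τ ≠ 0 ∧ sg ζ m τ ∈ U r := by
    intro ψ hψ τ hτ
    have hψ' : |ψ| < Real.pi / 2 := abs_lt.2 ⟨by linarith [hψ.1, Real.pi_pos], by linarith [hψ.2]⟩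
    exact ⟨slitPlane_ne_zero (Hp_slit hψ' hρ0 hτ),
      sg_mem hζ D.hm D.hr (lt_of_le_of_lt hρ2 (Hp_norm hτ))⟩
  have hηs : ∀ i, SlowH (δ / 2) δ ρ (fun τ => exp (2 * Real.pi * I * h i (sg ζ m τ))) := by
    intro i
    have h1 : Slow m r (fun s => exp (2 * Real.pi * I * h i s)) := by
      apply Slow.exp_of_lower D.hm ((D.hh i).const_mul _) (‖(2 * Real.pi * I : ℂ)‖ * K)
      intro s hs
      have h3 := mul_le_mul_of_nonneg_left (D.hK i s hs) (norm_nonneg (2 * Real.pi * I : ℂ))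
      rw [norm_mul]
      linarith
    exact slowH_of_slow hζ D.hm D.hr (by linarith [Real.pi_pos]) hδ2 hρ2 h1
  -- the exponents
  have hexp : ∀ k ∈ N, ∀ τ : ℂ, τ ≠ 0 → (∏ i, exp (mn (b i) τ) ^ k i) *
      exp (p.1 * (τ * log τ) + p.2 * τ) = exp (ω k * (sg ζ m τ)⁻¹ ^ m) := by
    intro k hk τ hτ
    have h1 : ∏ i, exp (mn (b i) τ) ^ k i = exp (∑ i, k i * mn (b i) τ) := by
      rw [exp_sum]
      exact Finset.prod_congr rfl fun i _ => (exp_nat_mul _ _).symm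
    rw [h1, ← exp_add]
    congr 1
    rw [sg_inv_pow D.hm hτ, hp1 k hk, hp2 k hk]
    simp only [mn_eq, mul_add, Finset.sum_add_distrib]
    have e1 : ∑ i, (k i : ℂ) * (b i * (τ * log τ)) = (∑ i, k i * b i) * (τ * log τ) := by
      rw [Finset.sum_mul]; exact Finset.sum_congr rfl fun i _ => by ring
    have e2 : ∑ i, (k i : ℂ) * (kap (b i) * τ) = (∑ i, k i * kap (b i)) * τ := by
      rw [Finset.sum_mul]; exact Finset.sum_congr rfl fun i _ => by ring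
    rw [e1, e2]
    simp only [hb]
    ring
  -- product identities
  have hprod : ∀ ψ ∈ Set.Ioo (δ / 2) δ, ∀ τ ∈ Hp ψ ρ, ∀ k : ι → ℕ,
      (∏ i, X i τ ^ k i) * ∏ i ∈ J, (1 - exp (2 * Real.pi * I *
        (a i * (sg ζ m τ)⁻¹ ^ m + h i (sg ζ m τ)))) ^ k i =
      ∏ i, (Gamma (a i * (sg ζ m τ)⁻¹ ^ m + h i (sg ζ m τ)))⁻¹ ^ k i := by
    intro ψ hψ τ hτ k
    have h1 : ∀ f : ι → ℂ, ∏ i ∈ J, f i = ∏ i, if i ∈ J then f i else 1 := by
      intro f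
      rw [Finset.prod_ite_mem, Finset.univ_inter]
    rw [h1, ← Finset.prod_mul_distrib]
    refine Finset.prod_congr rfl fun i _ => ?_
    by_cases hi : i ∈ J
    · simp only [hX, if_pos hi]
      rw [FJ_id _ ((hρJ' i hi).2 ψ hψ τ hτ), ← mul_pow, mul_comm]
    · simp only [hX, if_neg hi, mul_one]
  -- the twisted relation
  set G : ℂ × ℂ → ℂ := fun y => ∑ k ∈ N, R k (sg ζ m y.2) *
    (∏ i, (X i y.2 * exp (mn (b i) y.2)) ^ k i) *
    ∏ i ∈ J, (1 + -exp (2 * Real.pi * I * h i (sg ζ m y.2)) * exp (-(2 * Real.pi * β i) * y.1)) ^ k i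
    with hG
  have hGT : Tw (δ / 2) δ ρ G := by
    apply Tw.sum
    intro k hk
    apply Tw.mul
    · exact Tw.of_slow (g := fun τ => R k (sg ζ m τ) * ∏ i, (X i τ * exp (mn (b i) τ)) ^ k i)
        ((slowH_of_slow hζ D.hm D.hr (by linarith [Real.pi_pos]) hδ2 hρ2 (hRs k hk)).mul
        (SlowH.prod _ _ fun i _ => (hXs i).pow _))
    · apply Tw.prod
      intro i _
      apply Tw.pow
      apply Tw.add
      · exact Tw.of_slow (g := fun _ => 1) (SlowH.const 1)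
      · exact Tw.single (g := fun τ => -exp (2 * Real.pi * I * h i (sg ζ m τ))) (hηs i).neg _
  have hGd : ∀ ψ ∈ Set.Ioo (δ / 2) δ, ∀ τ ∈ Hp ψ ρ, G (τ, τ) = 0 := by
    intro ψ hψ τ hτ
    obtain ⟨hτ0, hs⟩ := hslit ψ hψ τ hτ
    have hE : exp (p.1 * (τ * log τ) + p.2 * τ) ≠ 0 := exp_ne_zero _
    apply (mul_eq_zero.1 (?_ : G (τ, τ) * exp (p.1 * (τ * log τ) + p.2 * τ) = 0)).resolve_right hE
    rw [← hrel _ hs]
    simp only [hG]
    rw [Finset.sum_mul]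
    refine Finset.sum_congr rfl fun k hk => ?_
    have h1 : ∏ i ∈ J, (1 + -exp (2 * Real.pi * I * h i (sg ζ m τ)) *
        exp (-(2 * Real.pi * β i) * τ)) ^ k i = ∏ i ∈ J, (1 - exp (2 * Real.pi * I *
        (a i * (sg ζ m τ)⁻¹ ^ m + h i (sg ζ m τ)))) ^ k i := by
      refine Finset.prod_congr rfl fun i hi => ?_
      congr 1
      rw [neg_mul, ← sub_eq_add_neg, ← exp_add]
      congr 2
      rw [sg_inv_pow D.hm hτ0, ← mul_assoc (a i)]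
      have h2 : a i * ζ⁻¹ ^ m = β i * I := hJb i hi
      rw [h2]
      have hI2 : I * I = -1 := I_mul_I
      linear_combination (-(2 * Real.pi * β i * τ)) * hI2
    rw [h1]
    have h3 : ∏ i, (X i τ * exp (mn (b i) τ)) ^ k i = (∏ i, X i τ ^ k i) *
        ∏ i, exp (mn (b i) τ) ^ k i := by
      rw [← Finset.prod_mul_distrib]
      exact Finset.prod_congr rfl fun i _ => mul_pow _ _ _
    rw [h3, ← hprod ψ hψ τ hτ k, ← hexp k hk τ hτ0]
    ring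
  have hGu : ∀ u : ℂ, ∀ ψ ∈ Set.Ioo (δ / 2) δ, ∀ τ ∈ Hp ψ ρ, G (u, τ) = 0 := fun u =>
    hGT.twist hS (by linarith [Real.pi_pos]) hδ12 hδ2 hρ1 hGd u
  have hGg : ∀ (u τ : ℂ), G (u, τ) = ∑ k ∈ N, R k (sg ζ m τ) *
    (∏ i, (X i τ * exp (mn (b i) τ)) ^ k i) * gam J β h k u (sg ζ m τ) := by
    intro u τ
    simp only [hG, gam]
    refine Finset.sum_congr rfl fun k _ => ?_
    congr 1
    refine Finset.prod_congr rfl fun i _ => ?_
    congr 1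
    rw [neg_mul, ← sub_eq_add_neg, ← exp_add]
    congr 2
    ring
  -- conclusion on the fan
  have hψ₀ : (3 * δ / 4) ∈ Set.Ioo (δ / 2) δ := ⟨by linarith, by linarith⟩
  have hψ' : |3 * δ / 4| < Real.pi / 2 := by rw [abs_of_pos (by positivity)]; linarith
  have hEd : ∀ i, DifferentiableOn ℂ (fun s => a i * s⁻¹ ^ m + h i s) (U r) := by
    intro i
    apply DifferentiableOn.add
    · apply DifferentiableOn.const_mul
      apply DifferentiableOn.pow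
      exact differentiableOn_id.inv fun s hs => U_ne hs
    · exact D.hh i
  have hgd : ∀ k u, DifferentiableOn ℂ (gam J β h k u) (U r) := by
    intro k u
    unfold gam
    apply DifferentiableOn.fun_finsetProd
    intro i _
    apply DifferentiableOn.pow
    apply DifferentiableOn.const_sub
    apply DifferentiableOn.cexp
    apply DifferentiableOn.sub_const
    exact (D.hh i).const_mul _
  apply of_fan hζ D.hm D.hr hψ' hρ0 (ρ := ρ)
  · apply DifferentiableOn.fun_sum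
    intro k hk
    apply DifferentiableOn.mul
    · apply DifferentiableOn.mul
      · apply DifferentiableOn.mul
        · apply (hRs k hk).1.mul
          exact ((hgd k u₁).mul (hgd k₀ u₂)).sub ((hgd k u₂).mul (hgd k₀ u₁))
        · apply DifferentiableOn.cexp
          apply DifferentiableOn.const_mul
          apply DifferentiableOn.pow
          exact differentiableOn_id.inv fun s hs => U_ne hs
      · apply DifferentiableOn.fun_finsetProd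
        intro i _
        apply DifferentiableOn.pow
        apply DifferentiableOn.const_sub
        exact ((hEd i).const_mul _).cexp
    · apply DifferentiableOn.fun_finsetProd
      intro i _
      apply DifferentiableOn.pow
      exact Complex.differentiable_one_div_Gamma.comp_differentiableOn (hEd i)
  · intro τ hτ
    obtain ⟨hτ0, hs⟩ := hslit _ hψ₀ τ hτ
    have e1 := hGu u₁ _ hψ₀ τ hτ
    have e2 := hGu u₂ _ hψ₀ τ hτ
    rw [hGg] at e1 e2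
    have e3 : (∑ k ∈ N, R k (sg ζ m τ) * (∏ i, (X i τ * exp (mn (b i) τ)) ^ k i) *
        gam J β h k u₁ (sg ζ m τ)) * gam J β h k₀ u₂ (sg ζ m τ) -
        (∑ k ∈ N, R k (sg ζ m τ) * (∏ i, (X i τ * exp (mn (b i) τ)) ^ k i) *
        gam J β h k u₂ (sg ζ m τ)) * gam J β h k₀ u₁ (sg ζ m τ) = 0 := by
      rw [e1, e2]; ring
    have e4 : ((∑ k ∈ N, R k (sg ζ m τ) * (∏ i, (X i τ * exp (mn (b i) τ)) ^ k i) *
        gam J β h k u₁ (sg ζ m τ)) * gam J β h k₀ u₂ (sg ζ m τ) -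
        (∑ k ∈ N, R k (sg ζ m τ) * (∏ i, (X i τ * exp (mn (b i) τ)) ^ k i) *
        gam J β h k u₂ (sg ζ m τ)) * gam J β h k₀ u₁ (sg ζ m τ)) *
        (exp (p.1 * (τ * log τ) + p.2 * τ) * ∏ i ∈ J, (1 - exp (2 * Real.pi * I *
        (a i * (sg ζ m τ)⁻¹ ^ m + h i (sg ζ m τ)))) ^ M) = 0 := by rw [e3, zero_mul]
    rw [← e4, Finset.sum_mul, Finset.sum_mul, ← Finset.sum_sub_distrib, Finset.sum_mul]
    refine Finset.sum_congr rfl fun k hk => ?_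
    have h3 : ∏ i, (X i τ * exp (mn (b i) τ)) ^ k i = (∏ i, X i τ ^ k i) *
        ∏ i, exp (mn (b i) τ) ^ k i := by
      rw [← Finset.prod_mul_distrib]
      exact Finset.prod_congr rfl fun i _ => mul_pow _ _ _
    have h4 : ∏ i ∈ J, (1 - exp (2 * Real.pi * I *
        (a i * (sg ζ m τ)⁻¹ ^ m + h i (sg ζ m τ)))) ^ M =
        (∏ i ∈ J, (1 - exp (2 * Real.pi * I *
        (a i * (sg ζ m τ)⁻¹ ^ m + h i (sg ζ m τ)))) ^ (M - k i)) *
        ∏ i ∈ J, (1 - exp (2 * Real.pi * I *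
        (a i * (sg ζ m τ)⁻¹ ^ m + h i (sg ζ m τ)))) ^ k i := by
      rw [← Finset.prod_mul_distrib]
      refine Finset.prod_congr rfl fun i _ => ?_
      rw [← pow_add, Nat.sub_add_cancel (hM k hk i)]
    rw [h3, h4, ← hprod _ hψ₀ τ hτ k, ← hexp k hk τ hτ0]
    ring

end Pool.Agent.W175.GF
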