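import Mathlib

set_option autoImplicit false

/-!
Definitions for project GF: functional transcendence of the Gamma function (MP_26ad15_nt).
-/

namespace Pool.Agent.W175.GF

open Complex

/-- the punctured disc of radius `r` -/
def U (r : ℝ) : Set ℂ := {s | 0 < ‖s‖ ∧ ‖s‖ < r}

/-- holomorphic functions on the punctured disc whose growth at `0` is slower than
`exp (ε |s|^(-m))` for every `ε > 0` -/
def Slow (m : ℕ) (r : ℝ) (f : ℂ → ℂ) : Prop :=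
  DifferentiableOn ℂ f (U r) ∧
    ∀ ε : ℝ, 0 < ε → ∃ C : ℝ, ∀ s ∈ U r, ‖f s‖ ≤ C * Real.exp (ε * ‖s‖⁻¹ ^ m)

/-- exponential polynomials in `s^(-m)` with slow coefficients -/
def EP (m : ℕ) (r : ℝ) (f : ℂ → ℂ) : Prop :=
  ∃ (W : Finset ℂ) (R : ℂ → ℂ → ℂ), (∀ ω ∈ W, Slow m r (R ω)) ∧
    ∀ s ∈ U r, f s = ∑ ω ∈ W, R ω s * exp (ω * s⁻¹ ^ m)

/-- holomorphic functions on the punctured disc, meromorphic at `0` -/
def Mer (r : ℝ) (f : ℂ → ℂ) : Prop :=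
  DifferentiableOn ℂ f (U r) ∧ ∃ (D : ℕ) (C : ℝ), ∀ s ∈ U r, ‖f s‖ ≤ C * ‖s‖⁻¹ ^ D

/-- the open half plane `ρ < Re (τ e^(-iψ))` -/
def Hp (ψ ρ : ℝ) : Set ℂ := {τ | ρ < (τ * exp (-(ψ * I))).re}

/-- functions holomorphic and of subexponential growth on all half planes with `ψ₁ < ψ < ψ₂` -/
def SlowH (ψ₁ ψ₂ ρ : ℝ) (R : ℂ → ℂ) : Prop :=
  ∀ ψ ∈ Set.Ioo ψ₁ ψ₂, DifferentiableOn ℂ R (Hp ψ ρ) ∧
    ∀ ε : ℝ, 0 < ε → ∃ C : ℝ, ∀ τ ∈ Hp ψ ρ, ‖R τ‖ ≤ C * Real.exp (ε * ‖τ‖)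

/-- the main term of `log Γ (b τ)` -/
noncomputable def mn (b τ : ℂ) : ℂ := b * τ * (log τ + log b - 1)

/-- `1/Γ(w)` divided by `1 - exp (2πi w)` -/
noncomputable def FJ (w : ℂ) : ℂ := w * Gamma (-w) * exp (-(I * Real.pi * w)) / (2 * Real.pi * I)

/-- algebraic dependence of two functions on a set (polynomials in two variables) -/
def AlgDep (Ω : Set ℂ) (f g : ℂ → ℂ) : Prop :=
  ∃ Q : Polynomial (Polynomial ℂ), Q ≠ 0 ∧ ∀ t ∈ Ω, Q.evalEval (f t) (g t) = 0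

end Pool.Agent.W175.GF
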