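import Pool.Agent.W175.GF.Defs

set_option autoImplicit false

/-!
Statements for project GF: functional transcendence of the Gamma function (MP_26ad15_nt).
-/

namespace Pool.Agent.W175.GF

open Complex

/-- Carlson type uniqueness lemma in a half plane -/
def S_CARL : Prop := ∀ (f : ℂ → ℂ) (C c c' : ℝ), c' < c →
  DifferentiableOn ℂ f {z | 0 < z.re} → ContinuousOn f {z | 0 ≤ z.re} →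
  (∀ z : ℂ, 0 ≤ z.re → ‖f z‖ ≤ C * Real.exp (C * ‖z‖)) →
  (∀ y : ℝ, 0 ≤ y → ‖f (y * I)‖ ≤ C * Real.exp (-(c * y))) →
  (∀ y : ℝ, 0 ≤ y → ‖f (-(y * I))‖ ≤ C * Real.exp (c' * y)) →
  ∀ z : ℂ, 0 ≤ z.re → f z = 0

/-- separation of exponents -/
def S_SEP : Prop := ∀ (ψ₁ ψ₂ ρ : ℝ), -(Real.pi / 2) < ψ₁ → ψ₁ < ψ₂ → ψ₂ < Real.pi / 2 → 1 ≤ ρ →
  ∀ (T : Finset (ℂ × ℂ)) (R : ℂ × ℂ → ℂ → ℂ), (∀ p ∈ T, SlowH ψ₁ ψ₂ ρ (R p)) →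
  (∀ ψ ∈ Set.Ioo ψ₁ ψ₂, ∀ τ ∈ Hp ψ ρ,
    ∑ p ∈ T, R p τ * exp (p.1 * (τ * log τ) + p.2 * τ) = 0) →
  ∀ p ∈ T, ∀ ψ ∈ Set.Ioo ψ₁ ψ₂, ∀ τ ∈ Hp ψ ρ, R p τ = 0

/-- Stirling's formula in sectors -/
def S_STIR : Prop := ∀ ε : ℝ, 0 < ε → ε < Real.pi → ∃ C : ℝ, ∀ w : ℂ, 2 ≤ ‖w‖ →
  |arg w| ≤ Real.pi - ε →
  |Real.log ‖Gamma w‖ - (w * log w - w).re| ≤ C * Real.log ‖w‖

/-- global upper bound for `1/Γ` -/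
def S_RG : Prop := ∃ C : ℝ, ∀ w : ℂ,
  ‖(Gamma w)⁻¹‖ ≤ C * Real.exp (C * ‖w‖ * Real.log (‖w‖ + 2))

/-- `1/Γ(bτ+η)` is slow up to its main term on half planes where it is regular -/
def S_REG : Prop := ∀ (b : ℂ) (ψ θ K : ℝ), b ≠ 0 → |arg b| ≤ Real.pi / 2 → |ψ| < Real.pi / 2 →
  |arg b + ψ| < Real.pi / 2 → 0 ≤ θ → θ < 1 → ∀ ε : ℝ, 0 < ε → ∃ C : ℝ, ∀ τ ∈ Hp ψ 1, ∀ η : ℂ,
  ‖η‖ ≤ K * ‖τ‖ ^ θ → ‖(Gamma (b * τ + η))⁻¹ * exp (mn b τ)‖ ≤ C * Real.exp (ε * ‖τ‖)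

/-- the same beyond the ray of poles, for purely imaginary `b = iβ` -/
def S_REGJ : Prop := ∀ (β θ K ψ₁ ψ₂ : ℝ), 0 < β → 0 < ψ₁ → ψ₁ < ψ₂ → ψ₂ < Real.pi / 2 →
  0 ≤ θ → θ < 1 → ∃ ρ : ℝ, 1 ≤ ρ ∧
  (∀ ψ ∈ Set.Icc ψ₁ ψ₂, ∀ τ ∈ Hp ψ ρ, ∀ η : ℂ, ‖η‖ ≤ K * ‖τ‖ ^ θ →
    ∀ n : ℕ, β * I * τ + η ≠ n) ∧
  ∀ ε : ℝ, 0 < ε → ∃ C : ℝ, ∀ ψ ∈ Set.Icc ψ₁ ψ₂, ∀ τ ∈ Hp ψ ρ, ∀ η : ℂ,
    ‖η‖ ≤ K * ‖τ‖ ^ θ →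
    ‖FJ (β * I * τ + η) * exp (mn (β * I) τ)‖ ≤ C * Real.exp (ε * ‖τ‖)

/-- orders of zeros -/
def S_LAST : Prop := ∀ (J : Type) [Fintype J] (β : J → ℝ) (η : J → ℂ) (j : J) (k k' : J → ℕ),
  (∀ i, 0 < β i) →
  (∀ i, i ≠ j → ∀ p q : ℚ, ¬ (β i = p * β j ∧ η i = p * η j + q)) →
  (∀ u : ℂ, ∏ i, (1 - exp (2 * Real.pi * I * η i - 2 * Real.pi * β i * u)) ^ k i =
    ∏ i, (1 - exp (2 * Real.pi * I * η i - 2 * Real.pi * β i * u)) ^ k' i) →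
  k j = k' j

/-- a good point -/
def S_GOOD : Prop := ∀ (J : Type) [Fintype J] (r : ℝ) (β : J → ℝ) (h : J → ℂ → ℂ) (j : J), 0 < r →
  (∀ i, DifferentiableOn ℂ (h i) (U r)) →
  (∀ i, i ≠ j → ∀ p q : ℚ, ¬ (β i = p * β j ∧ ∀ s ∈ U r, h i s = p * h j s + q)) →
  ∃ s ∈ U r, ∀ i, i ≠ j → ∀ p q : ℚ, ¬ (β i = p * β j ∧ h i s = p * h j s + q)

/-- the theorem for poles of the same order (owner: helper175) -/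
def S_TG : Prop := ∀ (m : ℕ) (r : ℝ) (ι : Type) [Fintype ι] (a : ι → ℂ)
  (h : ι → ℂ → ℂ) (K : ℝ), 1 ≤ m → 0 < r → r < 1 → (∀ i, a i ≠ 0) →
  (∀ i, DifferentiableOn ℂ (h i) (U r)) →
  (∀ i, ∀ s ∈ U r, ‖h i s‖ ≤ K * ‖s‖⁻¹ ^ (m - 1)) →
  (∀ i j, i ≠ j → ∀ p q : ℚ,
    ¬ ∀ s ∈ U r, a i * s⁻¹ ^ m + h i s = p * (a j * s⁻¹ ^ m + h j s) + q) →
  ∀ (N : Finset (ι → ℕ)) (c : (ι → ℕ) → ℂ → ℂ), (∀ k ∈ N, EP m r (c k)) →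
  (∀ s ∈ U r, ∑ k ∈ N, c k s * ∏ i, (Gamma (a i * s⁻¹ ^ m + h i s))⁻¹ ^ k i = 0) →
  ∀ k ∈ N, ∀ s ∈ U r, c k s = 0

/-- the local theorem: arbitrary poles -/
def S_LT : Prop := ∀ (r : ℝ) (ι : Type) [Fintype ι] (z : ι → ℂ → ℂ), 0 < r → r < 1 →
  (∀ i, DifferentiableOn ℂ (z i) (U r)) →
  (∀ i, ∃ (m : ℕ) (a : ℂ) (K : ℝ), 1 ≤ m ∧ a ≠ 0 ∧
    ∀ s ∈ U r, ‖z i s - a * s⁻¹ ^ m‖ ≤ K * ‖s‖⁻¹ ^ (m - 1)) →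
  (∀ i j, i ≠ j → ∀ p q : ℚ, ¬ ∀ s ∈ U r, z i s = p * z j s + q) →
  ∀ (N : Finset (ι → ℕ)) (c : (ι → ℕ) → ℂ → ℂ), (∀ k ∈ N, Mer r (c k)) →
  (∀ s ∈ U r, ∑ k ∈ N, c k s * ∏ i, (Gamma (z i s))⁻¹ ^ k i = 0) →
  ∀ k ∈ N, ∀ s ∈ U r, c k s = 0

/-- classification of meromorphic germs -/
def S_CLS : Prop := ∀ (r : ℝ) (f : ℂ → ℂ), 0 < r → Mer r f →
  (∃ (r' C : ℝ), 0 < r' ∧ r' ≤ r ∧ ∀ s ∈ U r', ‖f s‖ ≤ C) ∨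
  (∃ (r' : ℝ) (m : ℕ) (a : ℂ) (K : ℝ), 0 < r' ∧ r' ≤ r ∧ 1 ≤ m ∧ a ≠ 0 ∧
    ∀ s ∈ U r', ‖f s - a * s⁻¹ ^ m‖ ≤ K * ‖s‖⁻¹ ^ (m - 1))

/-- roots of a separable polynomial with holomorphic coefficients on a star shaped domain -/
def S_LIFT : Prop := ∀ (Ω : Set ℂ) (w₁ w₀ y₀ : ℂ) (d : ℕ) (c : ℕ → ℂ → ℂ), IsOpen Ω →
  w₁ ∈ Ω → StarConvex ℝ w₁ Ω → w₀ ∈ Ω → (∀ k, DifferentiableOn ℂ (c k) Ω) →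
  (∀ w ∈ Ω, c d w ≠ 0) →
  (∀ w ∈ Ω, ∀ y : ℂ, ∑ k ∈ Finset.range (d + 1), c k w * y ^ k = 0 →
    ∑ k ∈ Finset.range (d + 1), k * c k w * y ^ (k - 1) ≠ 0) →
  ∑ k ∈ Finset.range (d + 1), c k w₀ * y₀ ^ k = 0 →
  ∃ Y : ℂ → ℂ, DifferentiableOn ℂ Y Ω ∧ Y w₀ = y₀ ∧
    ∀ w ∈ Ω, ∑ k ∈ Finset.range (d + 1), c k w * Y w ^ k = 0

/-- algebraic functions on a half plane in the logarithmic coordinate are meromorphic in a root -/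
def S_PUIS : Prop := ∀ (ρ : ℝ) (tc : ℂ) (Q : Polynomial (Polynomial ℂ)) (F : ℂ → ℂ), Q ≠ 0 →
  DifferentiableOn ℂ F {w | ρ < w.re} →
  (∀ w : ℂ, ρ < w.re → Q.evalEval (tc + exp w) (F w) = 0) →
  ∃ (e : ℕ) (r : ℝ) (f : ℂ → ℂ), 1 ≤ e ∧ 0 < r ∧ Mer r f ∧
    (∀ w : ℂ, exp (-w / e) ∈ U r → ρ < w.re ∧ F w = f (exp (-w / e)))

/-- continuation of algebraic functions to a place at infinity, with transfer of all analytic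
relations -/
def S_CONT : Prop := ∀ (Ω : Set ℂ) (ι : Type) [Fintype ι] (i₀ : ι) (f : ι → ℂ → ℂ),
  IsOpen Ω → IsPreconnected Ω → Ω.Nonempty →
  (∀ i, DifferentiableOn ℂ (f i) Ω) → (∀ t ∈ Ω, f i₀ t = t) → (∀ i, AlgDep Ω (f i₀) (f i)) →
  ∃ (e : ℕ) (r : ℝ) (tc : ℂ) (F : ι → ℂ → ℂ), 1 ≤ e ∧ 0 < r ∧ r < 1 ∧
    (∀ s ∈ U r, F i₀ s = tc + s⁻¹ ^ e) ∧ (∀ i, Mer r (F i)) ∧
    ∀ G : (ι → ℂ) → ℂ, Differentiable ℂ G →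
      ((∀ t ∈ Ω, G (fun i => f i t) = 0) ↔ (∀ s ∈ U r, G (fun i => F i s) = 0))

/-- algebraic dependence is transitive for nonconstant functions -/
def S_ALG : Prop := ∀ (Ω : Set ℂ) (t₀ y f : ℂ → ℂ), IsOpen Ω → IsPreconnected Ω → Ω.Nonempty →
  DifferentiableOn ℂ t₀ Ω → DifferentiableOn ℂ y Ω → DifferentiableOn ℂ f Ω →
  (∀ v : ℂ, ¬ ∀ t ∈ Ω, t₀ t = v) → (∀ v : ℂ, ¬ ∀ t ∈ Ω, y t = v) →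
  AlgDep Ω t₀ y → AlgDep Ω t₀ f → AlgDep Ω y f

/-- the global theorem: values of `Γ` at algebraic functions -/
def S_GT : Prop := ∀ (ι : Type) [Fintype ι] (Ω : Set ℂ) (t₀ : ℂ → ℂ) (y : ι → ℂ → ℂ)
  (N : Finset (ι → ℕ)) (c : (ι → ℕ) → ℂ → ℂ), IsOpen Ω → IsPreconnected Ω → Ω.Nonempty →
  DifferentiableOn ℂ t₀ Ω → (∀ i, DifferentiableOn ℂ (y i) Ω) →
  (∀ k ∈ N, DifferentiableOn ℂ (c k) Ω) →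
  (∀ v : ℂ, ¬ ∀ t ∈ Ω, t₀ t = v) → (∀ i, ∀ v : ℂ, ¬ ∀ t ∈ Ω, y i t = v) →
  (∀ i, AlgDep Ω t₀ (y i)) → (∀ k ∈ N, AlgDep Ω t₀ (c k)) →
  (∀ i j, i ≠ j → ∀ p q : ℚ, ¬ ∀ t ∈ Ω, y i t = p * y j t + q) →
  (∀ t ∈ Ω, ∑ k ∈ N, c k t * ∏ i, (Gamma (y i t))⁻¹ ^ k i = 0) →
  ∀ k ∈ N, ∀ t ∈ Ω, c k t = 0

/-- the conjecture holds for all but countably many tuples of transcendence degree one -/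
def S_NL : Prop := ∀ (F : Subfield ℂ), (F : Set ℂ).Countable → ∀ n : ℕ,
  {z : Fin n → ℂ | (∀ i, ¬ IsAlgebraic F (z i)) ∧
    Algebra.trdeg F (IntermediateField.adjoin F (Set.range z)) ≤ 1 ∧
    (∀ i j, i ≠ j → ∀ p q : ℚ, z i ≠ p * z j + q) ∧
    Algebra.trdeg F (IntermediateField.adjoin F
      (Set.range z ∪ Set.range fun i => Gamma (z i))) < n + 1}.Countable

end Pool.Agent.W175.GF
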