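import Pool.Agent.W175.GF.TG
import Pool.Agent.W333.GF.Carl
import Pool.Agent.W688.GF.Sep
import Pool.Agent.W688.GF.Stirling
import Pool.Agent.W688.GF.Last
import Pool.Agent.W54.GF.RG
import Pool.Agent.W505.GF.Reg
import Pool.Agent.W505.GF.RegJ
import Pool.Agent.W505.GF.Good
import Pool.Agent.W505.GF.Cls
import Pool.Agent.W712.GF.LT
import Pool.Agent.W848.GF.Lift
import Pool.Agent.W848.GF.Cont
import Pool.Agent.W976.GF.Puis
import Pool.Agent.W462.GF.ALG
import Pool.Agent.W266.GF.GT
import Pool.Agent.W571.GF.NL

set_option autoImplicit false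

/-!
Project GF: the final theorems.
-/

namespace Pool.Agent.W175.GF

theorem sepF : S_SEP := Pool.Agent.W688.GF.sep Pool.Agent.W333.GF.carl

theorem stirF : S_STIR := Pool.Agent.W688.GF.stir

theorem regF : S_REG := Pool.Agent.W505.GF.reg stirF

theorem regjF : S_REGJ := Pool.Agent.W505.GF.regj stirF

/-- values of `Γ` at functions with a pole of the same order -/
theorem tgF : S_TG := tg sepF regF regjF Pool.Agent.W688.GF.last Pool.Agent.W505.GF.good

theorem rgF : S_RG := Pool.Agent.W54.GF.rg stirF

/-- values of `Γ` at meromorphic germs with a pole -/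
theorem ltF : S_LT := Pool.Agent.W712.GF.lt tgF rgF

theorem contF : S_CONT := Pool.Agent.W848.GF.cont Pool.Agent.W848.GF.lift Pool.Agent.W976.GF.puis

/-- values of `Γ` at algebraic functions of one variable -/
theorem gtF : S_GT :=
  Pool.Agent.W266.GF.gt ltF contF Pool.Agent.W462.GF.alg Pool.Agent.W505.GF.cls

/-- tuples of transcendence degree one -/
theorem nlF : S_NL := Pool.Agent.W571.GF.nl gtF

end Pool.Agent.W175.GF
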