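import Pool.Agent.W175.GF.Basic
import Pool.Agent.W175.GF.Stm

set_option autoImplicit false

/-!
Separation with multiplicities and the twisting lemma.
-/

namespace Pool.Agent.W175.GF

open Complex

section closure

variable {ψ₁ ψ₂ ρ : ℝ}

lemma SlowH.add {f g : ℂ → ℂ} (hf : SlowH ψ₁ ψ₂ ρ f) (hg : SlowH ψ₁ ψ₂ ρ g) :
    SlowH ψ₁ ψ₂ ρ (fun τ => f τ + g τ) := fun ψ hψ =>
  ⟨(hf ψ hψ).1.add (hg ψ hψ).1, SE.add (D := Hp ψ ρ) (g := fun τ => ‖τ‖) (hf ψ hψ).2 (hg ψ hψ).2⟩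

lemma SlowH.mul {f g : ℂ → ℂ} (hf : SlowH ψ₁ ψ₂ ρ f) (hg : SlowH ψ₁ ψ₂ ρ g) :
    SlowH ψ₁ ψ₂ ρ (fun τ => f τ * g τ) := fun ψ hψ =>
  ⟨(hf ψ hψ).1.mul (hg ψ hψ).1, SE.mul (D := Hp ψ ρ) (g := fun τ => ‖τ‖) (hf ψ hψ).2 (hg ψ hψ).2⟩

lemma SlowH.const (c : ℂ) : SlowH ψ₁ ψ₂ ρ (fun _ => c) := fun ψ _ =>
  ⟨differentiableOn_const c, SE.of_bdd (D := Hp ψ ρ) (g := fun τ => ‖τ‖) (fun _ _ => norm_nonneg _)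
    ‖c‖ fun _ _ => le_rfl⟩

lemma SlowH.congr {f g : ℂ → ℂ} (hf : SlowH ψ₁ ψ₂ ρ f)
    (h : ∀ ψ ∈ Set.Ioo ψ₁ ψ₂, ∀ τ ∈ Hp ψ ρ, g τ = f τ) : SlowH ψ₁ ψ₂ ρ g := by
  intro ψ hψ
  refine ⟨(hf ψ hψ).1.congr (h ψ hψ), fun ε hε => ?_⟩
  obtain ⟨C, hC⟩ := (hf ψ hψ).2 ε hε
  exact ⟨C, fun τ hτ => by rw [h ψ hψ τ hτ]; exact hC τ hτ⟩

lemma SlowH.sum {α : Type} (S : Finset α) (f : α → ℂ → ℂ)
    (h : ∀ a ∈ S, SlowH ψ₁ ψ₂ ρ (f a)) : SlowH ψ₁ ψ₂ ρ (fun s => ∑ a ∈ S, f a s) := by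
  classical
  induction S using Finset.induction_on with
  | empty => simpa using SlowH.const 0
  | insert a S ha ih =>
    have h1 := (h a (Finset.mem_insert_self a S)).add
      (ih fun b hb => h b (Finset.mem_insert_of_mem hb))
    exact h1.congr fun _ _ s _ => Finset.sum_insert ha

lemma SlowH.pow {f : ℂ → ℂ} (hf : SlowH ψ₁ ψ₂ ρ f) (n : ℕ) :
    SlowH ψ₁ ψ₂ ρ (fun s => f s ^ n) := by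
  induction n with
  | zero => simpa using SlowH.const 1
  | succ n ih => exact (ih.mul hf).congr fun _ _ s _ => pow_succ _ _

lemma SlowH.prod {α : Type} (S : Finset α) (f : α → ℂ → ℂ)
    (h : ∀ a ∈ S, SlowH ψ₁ ψ₂ ρ (f a)) : SlowH ψ₁ ψ₂ ρ (fun s => ∏ a ∈ S, f a s) := by
  classical
  induction S using Finset.induction_on with
  | empty => simpa using SlowH.const 1
  | insert a S ha ih =>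
    have h1 := (h a (Finset.mem_insert_self a S)).mul
      (ih fun b hb => h b (Finset.mem_insert_of_mem hb))
    exact h1.congr fun _ _ s _ => Finset.prod_insert ha

lemma SlowH.neg {f : ℂ → ℂ} (hf : SlowH ψ₁ ψ₂ ρ f) : SlowH ψ₁ ψ₂ ρ (fun s => - f s) :=
  ((SlowH.const (-1)).mul hf).congr fun _ _ s _ => by ring

end closure

/-- separation with multiplicities -/
lemma sepm (hS : S_SEP) {ψ₁ ψ₂ ρ : ℝ} (h1 : -(Real.pi / 2) < ψ₁) (h2 : ψ₁ < ψ₂)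
    (h3 : ψ₂ < Real.pi / 2) (h4 : 1 ≤ ρ) {α : Type} (P : Finset α) (lam : α → ℂ × ℂ)
    (R : α → ℂ → ℂ) (hR : ∀ x ∈ P, SlowH ψ₁ ψ₂ ρ (R x))
    (h : ∀ ψ ∈ Set.Ioo ψ₁ ψ₂, ∀ τ ∈ Hp ψ ρ,
      ∑ x ∈ P, R x τ * exp ((lam x).1 * (τ * log τ) + (lam x).2 * τ) = 0) (p : ℂ × ℂ) :
    ∀ ψ ∈ Set.Ioo ψ₁ ψ₂, ∀ τ ∈ Hp ψ ρ, ∑ x ∈ P with lam x = p, R x τ = 0 := by
  classical
  by_cases hp : p ∈ P.image lam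
  · have key := hS ψ₁ ψ₂ ρ h1 h2 h3 h4 (P.image lam) (fun q τ => ∑ x ∈ P with lam x = q, R x τ)
      (by
        intro q _
        exact SlowH.sum _ _ fun x hx => hR x (Finset.mem_filter.1 hx).1) (by
        intro ψ hψ τ hτ
        rw [← h ψ hψ τ hτ]
        rw [← Finset.sum_fiberwise_of_maps_to (s := P) (t := P.image lam) (g := lam)
          (fun x hx => Finset.mem_image_of_mem lam hx)]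
        refine Finset.sum_congr rfl fun q _ => ?_
        rw [Finset.sum_mul]
        refine Finset.sum_congr rfl fun x hx => ?_
        rw [(Finset.mem_filter.1 hx).2]) p hp
    exact key
  · intro ψ _ τ _
    apply Finset.sum_eq_zero
    intro x hx
    exfalso
    apply hp
    rw [← (Finset.mem_filter.1 hx).2]
    exact Finset.mem_image_of_mem lam (Finset.mem_filter.1 hx).1

/-- functions of two variables: exponential sums in `u` with slow coefficients in `τ` -/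
def Tw (ψ₁ ψ₂ ρ : ℝ) (G : ℂ × ℂ → ℂ) : Prop :=
  ES {y : ℂ × ℂ | ∃ ψ ∈ Set.Ioo ψ₁ ψ₂, y.2 ∈ Hp ψ ρ}
    (fun D => ∃ D₀ : ℂ → ℂ, SlowH ψ₁ ψ₂ ρ D₀ ∧ D = fun y => D₀ y.2)
    (fun μ y => exp (μ * y.1)) G

section Twsec

variable {ψ₁ ψ₂ ρ : ℝ}

private def TS (ψ₁ ψ₂ ρ : ℝ) (D : ℂ × ℂ → ℂ) : Prop :=
  ∃ D₀ : ℂ → ℂ, SlowH ψ₁ ψ₂ ρ D₀ ∧ D = fun y => D₀ y.2

private lemma t0 : TS ψ₁ ψ₂ ρ (fun _ => 0) := ⟨fun _ => 0, SlowH.const 0, rfl⟩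
private lemma t1 : TS ψ₁ ψ₂ ρ (fun _ => 1) := ⟨fun _ => 1, SlowH.const 1, rfl⟩
private lemma ta : ∀ f g : ℂ × ℂ → ℂ, TS ψ₁ ψ₂ ρ f → TS ψ₁ ψ₂ ρ g →
    TS ψ₁ ψ₂ ρ (fun y => f y + g y) := by
  rintro _ _ ⟨f, hf, rfl⟩ ⟨g, hg, rfl⟩
  exact ⟨fun τ => f τ + g τ, hf.add hg, rfl⟩
private lemma tm : ∀ f g : ℂ × ℂ → ℂ, TS ψ₁ ψ₂ ρ f → TS ψ₁ ψ₂ ρ g →
    TS ψ₁ ψ₂ ρ (fun y => f y * g y) := by
  rintro _ _ ⟨f, hf, rfl⟩ ⟨g, hg, rfl⟩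
  exact ⟨fun τ => f τ * g τ, hf.mul hg, rfl⟩
private lemma tx : ∀ (a b : ℂ) (s : ℂ × ℂ), exp ((a + b) * s.1) = exp (a * s.1) * exp (b * s.1) := by
  intro a b s
  rw [add_mul, exp_add]

lemma Tw.congr {f g : ℂ × ℂ → ℂ} (hf : Tw ψ₁ ψ₂ ρ f)
    (h : ∀ y : ℂ × ℂ, (∃ ψ ∈ Set.Ioo ψ₁ ψ₂, y.2 ∈ Hp ψ ρ) → g y = f y) : Tw ψ₁ ψ₂ ρ g :=
  ES.congr hf h

lemma Tw.single {g : ℂ → ℂ} (hg : SlowH ψ₁ ψ₂ ρ g) (μ : ℂ) :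
    Tw ψ₁ ψ₂ ρ (fun y => g y.2 * exp (μ * y.1)) :=
  ES.single (D := {y : ℂ × ℂ | ∃ ψ ∈ Set.Ioo ψ₁ ψ₂, y.2 ∈ Hp ψ ρ}) (S := TS ψ₁ ψ₂ ρ)
    (χ := fun μ y => exp (μ * y.1)) ⟨g, hg, rfl⟩ μ

lemma Tw.of_slow {g : ℂ → ℂ} (hg : SlowH ψ₁ ψ₂ ρ g) : Tw ψ₁ ψ₂ ρ (fun y => g y.2) :=
  (Tw.single hg 0).congr fun y _ => by rw [zero_mul, exp_zero, mul_one]

lemma Tw.add {f g : ℂ × ℂ → ℂ} (hf : Tw ψ₁ ψ₂ ρ f) (hg : Tw ψ₁ ψ₂ ρ g) :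
    Tw ψ₁ ψ₂ ρ (fun y => f y + g y) :=
  ES.add (S := TS ψ₁ ψ₂ ρ) t0 ta hf hg

lemma Tw.mul {f g : ℂ × ℂ → ℂ} (hf : Tw ψ₁ ψ₂ ρ f) (hg : Tw ψ₁ ψ₂ ρ g) :
    Tw ψ₁ ψ₂ ρ (fun y => f y * g y) :=
  ES.mul (S := TS ψ₁ ψ₂ ρ) t0 ta tm tx hf hg

lemma Tw.sum {α : Type} (A : Finset α) (f : α → ℂ × ℂ → ℂ) (hf : ∀ a ∈ A, Tw ψ₁ ψ₂ ρ (f a)) :
    Tw ψ₁ ψ₂ ρ (fun y => ∑ a ∈ A, f a y) :=
  ES.sum (S := TS ψ₁ ψ₂ ρ) t0 ta A f hf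

lemma Tw.pow {f : ℂ × ℂ → ℂ} (hf : Tw ψ₁ ψ₂ ρ f) (n : ℕ) : Tw ψ₁ ψ₂ ρ (fun y => f y ^ n) :=
  ES.pow (S := TS ψ₁ ψ₂ ρ) t0 t1 ta tm tx (fun y _ => by simp) hf n

lemma Tw.prod {α : Type} (A : Finset α) (f : α → ℂ × ℂ → ℂ) (hf : ∀ a ∈ A, Tw ψ₁ ψ₂ ρ (f a)) :
    Tw ψ₁ ψ₂ ρ (fun y => ∏ a ∈ A, f a y) :=
  ES.prod (S := TS ψ₁ ψ₂ ρ) t0 t1 ta tm tx (fun y _ => by simp) A f hf

/-- the twisting lemma -/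
lemma Tw.twist (hS : S_SEP) (h1 : -(Real.pi / 2) < ψ₁) (h2 : ψ₁ < ψ₂)
    (h3 : ψ₂ < Real.pi / 2) (h4 : 1 ≤ ρ) {G : ℂ × ℂ → ℂ} (hG : Tw ψ₁ ψ₂ ρ G)
    (h : ∀ ψ ∈ Set.Ioo ψ₁ ψ₂, ∀ τ ∈ Hp ψ ρ, G (τ, τ) = 0) (u : ℂ) :
    ∀ ψ ∈ Set.Ioo ψ₁ ψ₂, ∀ τ ∈ Hp ψ ρ, G (u, τ) = 0 := by
  classical
  obtain ⟨W, R, hR, hG⟩ := hG
  choose! R₀ hR₀ hR₁ using hR
  have hz : ∀ p ∈ W, ∀ ψ ∈ Set.Ioo ψ₁ ψ₂, ∀ τ ∈ Hp ψ ρ, R₀ p τ = 0 := by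
    intro p hp ψ hψ τ hτ
    have key := sepm hS h1 h2 h3 h4 W (fun μ => ((0 : ℂ), μ)) R₀ hR₀ (by
      intro ψ hψ τ hτ
      have h5 := h ψ hψ τ hτ
      rw [hG (τ, τ) ⟨ψ, hψ, hτ⟩] at h5
      refine Eq.trans (Finset.sum_congr rfl fun μ hμ => ?_) h5
      rw [hR₁ μ hμ]
      simp) (0, p) ψ hψ τ hτ
    rw [Finset.sum_eq_single p] at key
    · exact key
    · intro b hb hne
      exfalso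
      apply hne
      have := (Finset.mem_filter.1 hb).2
      exact (Prod.mk.inj this).2
    · intro hnot
      exfalso
      apply hnot
      rw [Finset.mem_filter]
      exact ⟨hp, rfl⟩
  intro ψ hψ τ hτ
  rw [hG (u, τ) ⟨ψ, hψ, hτ⟩]
  apply Finset.sum_eq_zero
  intro μ hμ
  rw [hR₁ μ hμ]
  simp only
  rw [hz μ hμ ψ hψ τ hτ, zero_mul]

end Twsec

end Pool.Agent.W175.GF
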