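import Pool.Agent.W175.GF.Sep2

set_option autoImplicit false

/-!
The change of variables `s = ζ τ^(-1/m)` and the slow factors of `1/Γ`.
-/

namespace Pool.Agent.W175.GF

open Complex Filter Topology

/-- `ζ τ^(-1/m)` -/
noncomputable def sg (ζ : ℂ) (m : ℕ) (τ : ℂ) : ℂ := ζ * exp (-(log τ) / m)

lemma Hp_re {ψ ρ : ℝ} (τ : ℂ) :
    (τ * exp (-(ψ * I))).re = τ.re * Real.cos ψ + τ.im * Real.sin ψ := by
  have h : exp (-((ψ : ℂ) * I)) = ((Real.cos ψ : ℝ) : ℂ) - ((Real.sin ψ : ℝ) : ℂ) * I := by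
    have h1 : -((ψ : ℂ) * I) = ((-ψ : ℝ) : ℂ) * I := by push_cast; ring
    rw [h1, exp_mul_I, ← ofReal_cos, ← ofReal_sin, Real.cos_neg, Real.sin_neg]
    push_cast
    ring
  rw [h]
  simp [mul_re, sub_re, sub_im, Complex.cos_ofReal_re, Complex.sin_ofReal_re]

lemma Hp_slit {ψ ρ : ℝ} (hψ : |ψ| < Real.pi / 2) (hρ : 0 ≤ ρ) {τ : ℂ} (hτ : τ ∈ Hp ψ ρ) :
    τ ∈ slitPlane := by
  rw [mem_slitPlane_iff]
  by_contra hcon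
  push Not at hcon
  have h1 : ρ < (τ * exp (-(ψ * I))).re := hτ
  rw [Hp_re (ρ := ρ), hcon.2, zero_mul, add_zero] at h1
  have h2 : 0 < Real.cos ψ := Real.cos_pos_of_mem_Ioo ⟨by linarith [(abs_lt.1 hψ).1], (abs_lt.1 hψ).2⟩
  nlinarith [hcon.1]

lemma Hp_norm {ψ ρ : ℝ} {τ : ℂ} (hτ : τ ∈ Hp ψ ρ) : ρ < ‖τ‖ := by
  have h1 : ρ < (τ * exp (-(ψ * I))).re := hτ
  have h2 := re_le_norm (τ * exp (-(ψ * I)))
  have h3 : ‖τ * exp (-(ψ * I))‖ = ‖τ‖ := by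
    rw [norm_mul, norm_exp]
    simp
  linarith

lemma Hp_anti {ψ ρ ρ' : ℝ} (h : ρ ≤ ρ') : Hp ψ ρ' ⊆ Hp ψ ρ := fun _ hτ => lt_of_le_of_lt h hτ

lemma Hp_open (ψ ρ : ℝ) : IsOpen (Hp ψ ρ) := by
  unfold Hp
  exact isOpen_lt continuous_const (by fun_prop)

lemma sg_inv_pow {ζ : ℂ} {m : ℕ} (hm : 1 ≤ m) {τ : ℂ} (hτ : τ ≠ 0) :
    (sg ζ m τ)⁻¹ ^ m = ζ⁻¹ ^ m * τ := by
  unfold sg
  have hm' : (m : ℂ) ≠ 0 := by exact_mod_cast (by omega : m ≠ 0)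
  rw [mul_inv, mul_pow, ← exp_neg, ← exp_nat_mul]
  congr 1
  have : (m : ℂ) * -(-(log τ) / m) = log τ := by field_simp
  rw [this, exp_log hτ]

lemma sg_ne {ζ : ℂ} (hζ : ‖ζ‖ = 1) (m : ℕ) (τ : ℂ) : sg ζ m τ ≠ 0 := by
  unfold sg
  apply mul_ne_zero _ (exp_ne_zero _)
  intro h; rw [h] at hζ; simp at hζ

lemma norm_sg {ζ : ℂ} (hζ : ‖ζ‖ = 1) {m : ℕ} (hm : 1 ≤ m) {τ : ℂ} (hτ : τ ≠ 0) :
    ‖sg ζ m τ‖⁻¹ ^ m = ‖τ‖ := by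
  have h := congrArg norm (sg_inv_pow (ζ := ζ) hm hτ)
  rw [norm_pow, norm_inv, norm_mul, norm_pow, norm_inv, hζ, inv_one, one_pow, one_mul] at h
  exact h

lemma sg_mem {ζ : ℂ} (hζ : ‖ζ‖ = 1) {m : ℕ} (hm : 1 ≤ m) {r : ℝ} (hr : 0 < r) {τ : ℂ}
    (hτ : r⁻¹ ^ m < ‖τ‖) : sg ζ m τ ∈ U r := by
  have hτ0 : τ ≠ 0 := by
    intro h; rw [h, norm_zero] at hτ
    have : 0 < r⁻¹ ^ m := by positivity
    linarith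
  have h1 := norm_sg hζ hm hτ0
  have h0 : 0 < ‖sg ζ m τ‖ := norm_pos_iff.2 (sg_ne hζ m τ)
  refine ⟨h0, ?_⟩
  rw [← h1] at hτ
  have h2 := lt_of_pow_lt_pow_left₀ m (by positivity) hτ
  exact (inv_lt_inv₀ hr h0).1 h2

lemma sg_ray (ζ : ℂ) {m : ℕ} (hm : 1 ≤ m) {x : ℝ} (hx : 0 < x) :
    sg ζ m ((x⁻¹ ^ m : ℝ) : ℂ) = ζ * x := by
  unfold sg
  have hm' : (m : ℝ) ≠ 0 := by exact_mod_cast (by omega : m ≠ 0)
  congr 1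
  rw [← ofReal_log (by positivity), Real.log_pow, Real.log_inv]
  have : -(((m * -Real.log x : ℝ)) : ℂ) / m = ((Real.log x : ℝ) : ℂ) := by
    push_cast
    have : (m : ℂ) ≠ 0 := by exact_mod_cast (by omega : m ≠ 0)
    field_simp
  rw [this, ← ofReal_exp, Real.exp_log hx]

lemma sg_diff (ζ : ℂ) (m : ℕ) : DifferentiableOn ℂ (sg ζ m) slitPlane := by
  intro τ hτ
  unfold sg
  have : DifferentiableAt ℂ log τ := differentiableAt_log hτ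
  exact (((this.neg).div_const _).cexp.const_mul ζ).differentiableWithinAt

lemma mem_ray {ψ ρ : ℝ} (hψ : |ψ| < Real.pi / 2) (hρ : 0 ≤ ρ) {m : ℕ} (hm : 1 ≤ m) :
    ∃ δ : ℝ, 0 < δ ∧ ∀ x : ℝ, 0 < x → x < δ → ((x⁻¹ ^ m : ℝ) : ℂ) ∈ Hp ψ ρ := by
  have h2 : 0 < Real.cos ψ := Real.cos_pos_of_mem_Ioo ⟨by linarith [(abs_lt.1 hψ).1], (abs_lt.1 hψ).2⟩
  refine ⟨min 1 (Real.cos ψ / (ρ + 1)), by positivity, fun x hx hx1 => ?_⟩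
  have h3 : x < 1 := hx1.trans_le (min_le_left _ _)
  have h4 : x < Real.cos ψ / (ρ + 1) := hx1.trans_le (min_le_right _ _)
  show ρ < (((x⁻¹ ^ m : ℝ) : ℂ) * exp (-(ψ * I))).re
  rw [Hp_re (ρ := ρ)]
  simp only [ofReal_re, ofReal_im, zero_mul, add_zero]
  have h5 : x⁻¹ ≤ x⁻¹ ^ m := by
    calc x⁻¹ = x⁻¹ ^ 1 := (pow_one _).symm
      _ ≤ x⁻¹ ^ m := pow_le_pow_right₀ ((one_le_inv₀ hx).2 h3.le) hm
  have h6 : (ρ + 1) * x < Real.cos ψ := by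
    rw [lt_div_iff₀ (by positivity)] at h4
    linarith
  have h7 : ρ + 1 < x⁻¹ * Real.cos ψ := by
    rw [lt_inv_mul_iff₀ hx]; linarith
  nlinarith

lemma of_fan {ζ : ℂ} (hζ : ‖ζ‖ = 1) {m : ℕ} (hm : 1 ≤ m) {r ψ ρ : ℝ} (hr : 0 < r)
    (hψ : |ψ| < Real.pi / 2) (hρ : 0 ≤ ρ) {f : ℂ → ℂ} (hf : DifferentiableOn ℂ f (U r))
    (h : ∀ τ ∈ Hp ψ ρ, f (sg ζ m τ) = 0) : ∀ s ∈ U r, f s = 0 := by
  obtain ⟨δ, hδ, h1⟩ := mem_ray hψ hρ hm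
  apply eq_zero_of_ray hδ hr hζ hf
  intro x hx hx1
  rw [← sg_ray ζ hm hx]
  exact h _ (h1 x hx hx1)

lemma slowH_of_slow {ζ : ℂ} (hζ : ‖ζ‖ = 1) {m : ℕ} (hm : 1 ≤ m) {r ψ₁ ψ₂ ρ : ℝ} (hr : 0 < r)
    (h1 : -(Real.pi / 2) < ψ₁) (h2 : ψ₂ < Real.pi / 2) (hρ : r⁻¹ ^ m ≤ ρ) {f : ℂ → ℂ}
    (hf : Slow m r f) : SlowH ψ₁ ψ₂ ρ (fun τ => f (sg ζ m τ)) := by
  have hρ0 : 0 ≤ ρ := le_trans (by positivity) hρ
  intro ψ hψ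
  have hψ' : |ψ| < Real.pi / 2 := abs_lt.2 ⟨by linarith [hψ.1], by linarith [hψ.2]⟩
  have hmem : ∀ τ ∈ Hp ψ ρ, sg ζ m τ ∈ U r := fun τ hτ =>
    sg_mem hζ hm hr (lt_of_le_of_lt hρ (Hp_norm hτ))
  constructor
  · exact hf.1.comp ((sg_diff ζ m).mono fun τ hτ => Hp_slit hψ' hρ0 hτ) hmem
  · intro ε hε
    obtain ⟨C, hC⟩ := hf.2 ε hε
    refine ⟨C, fun τ hτ => ?_⟩
    have h3 := hC _ (hmem τ hτ)
    rwa [norm_sg hζ hm (slitPlane_ne_zero (Hp_slit hψ' hρ0 hτ))] at h3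

/-- the bound for the lower order part in terms of `τ` -/
lemma lower_bd {ζ : ℂ} (hζ : ‖ζ‖ = 1) {m : ℕ} (hm : 1 ≤ m) {τ : ℂ} (hτ : τ ≠ 0) :
    ‖sg ζ m τ‖⁻¹ ^ (m - 1) = ‖τ‖ ^ (((m : ℝ) - 1) / m) := by
  have h0 : 0 < ‖sg ζ m τ‖ := norm_pos_iff.2 (sg_ne hζ m τ)
  have h1 := norm_sg hζ hm hτ
  have hm' : (m : ℝ) ≠ 0 := by exact_mod_cast (by omega : m ≠ 0)
  rw [← h1, ← Real.rpow_natCast, ← Real.rpow_natCast, ← Real.rpow_mul (by positivity)]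
  congr 1
  rw [Nat.cast_sub hm]
  field_simp
  simp

/-- data for the theorem -/
structure DT (m : ℕ) (r : ℝ) (ι : Type) [Fintype ι] (a : ι → ℂ) (h : ι → ℂ → ℂ) (K : ℝ) :
    Prop where
  hm : 1 ≤ m
  hr : 0 < r
  hr1 : r < 1
  ha : ∀ i, a i ≠ 0
  hh : ∀ i, DifferentiableOn ℂ (h i) (U r)
  hK : ∀ i, ∀ s ∈ U r, ‖h i s‖ ≤ K * ‖s‖⁻¹ ^ (m - 1)
  hH : ∀ i j, i ≠ j → ∀ p q : ℚ,
    ¬ ∀ s ∈ U r, a i * s⁻¹ ^ m + h i s = p * (a j * s⁻¹ ^ m + h j s) + q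

variable {m : ℕ} {r : ℝ} {ι : Type} [Fintype ι] {a : ι → ℂ} {h : ι → ℂ → ℂ} {K : ℝ}

lemma mn_diff (b : ℂ) : DifferentiableOn ℂ (mn b) slitPlane := by
  intro τ hτ
  have h1 : DifferentiableAt ℂ log τ := differentiableAt_log hτ
  have h2 : DifferentiableAt ℂ (fun τ => b * τ * (log τ + log b - 1)) τ :=
    ((differentiableAt_id.const_mul b).mul ((h1.add_const _).sub_const _))
  exact h2.differentiableWithinAt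

/-- slow factor on a regular fan -/
lemma slow_reg (hR : S_REG) (D : DT m r ι a h K) {ζ : ℂ} (hζ : ‖ζ‖ = 1) (i : ι) {ψ₁ ψ₂ ρ : ℝ}
    (h1 : -(Real.pi / 2) < ψ₁) (h2 : ψ₂ < Real.pi / 2) (hρ : r⁻¹ ^ m ≤ ρ) (hρ1 : 1 ≤ ρ)
    (hb : |arg (a i * ζ⁻¹ ^ m)| ≤ Real.pi / 2)
    (hψ : ∀ ψ ∈ Set.Ioo ψ₁ ψ₂, |arg (a i * ζ⁻¹ ^ m) + ψ| < Real.pi / 2) :
    SlowH ψ₁ ψ₂ ρ (fun τ => (Gamma (a i * (sg ζ m τ)⁻¹ ^ m + h i (sg ζ m τ)))⁻¹ *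
      exp (mn (a i * ζ⁻¹ ^ m) τ)) := by
  have hρ0 : 0 ≤ ρ := by linarith
  have hζ0 : ζ ≠ 0 := by intro h; rw [h] at hζ; simp at hζ
  have hb0 : a i * ζ⁻¹ ^ m ≠ 0 := mul_ne_zero (D.ha i) (pow_ne_zero _ (inv_ne_zero hζ0))
  have hm' : (0 : ℝ) < m := by exact_mod_cast (by have := D.hm; omega : 0 < m)
  have hθ0 : 0 ≤ ((m : ℝ) - 1) / m := by
    apply div_nonneg _ hm'.le
    have : (1 : ℝ) ≤ m := by exact_mod_cast D.hm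
    linarith
  have hθ1 : ((m : ℝ) - 1) / m < 1 := by rw [div_lt_one hm']; linarith
  intro ψ hψ0
  have hψ' : |ψ| < Real.pi / 2 := abs_lt.2 ⟨by linarith [hψ0.1], by linarith [hψ0.2]⟩
  have hmem : ∀ τ ∈ Hp ψ ρ, sg ζ m τ ∈ U r := fun τ hτ =>
    sg_mem hζ D.hm D.hr (lt_of_le_of_lt hρ (Hp_norm hτ))
  have hslit : ∀ τ ∈ Hp ψ ρ, τ ∈ slitPlane := fun τ hτ => Hp_slit hψ' hρ0 hτ
  have hsd : DifferentiableOn ℂ (sg ζ m) (Hp ψ ρ) := (sg_diff ζ m).mono hslit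
  constructor
  · apply DifferentiableOn.mul
    · apply Complex.differentiable_one_div_Gamma.comp_differentiableOn
      apply DifferentiableOn.add
      · apply DifferentiableOn.const_mul
        apply DifferentiableOn.pow
        exact hsd.inv fun τ _ => sg_ne hζ m τ
      · exact (D.hh i).comp hsd hmem
    · exact ((mn_diff _).mono hslit).cexp
  · intro ε hε
    obtain ⟨C, hC⟩ := hR (a i * ζ⁻¹ ^ m) ψ (((m : ℝ) - 1) / m) K hb0 hb hψ' (hψ ψ hψ0) hθ0 hθ1 ε hε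
    refine ⟨C, fun τ hτ => ?_⟩
    have hτ0 := slitPlane_ne_zero (hslit τ hτ)
    have h3 := hC τ (Hp_anti hρ1 hτ) (h i (sg ζ m τ)) (by
      have := D.hK i _ (hmem τ hτ)
      rwa [lower_bd hζ D.hm hτ0] at this)
    simp only
    rw [sg_inv_pow D.hm hτ0, ← mul_assoc]
    exact h3

end Pool.Agent.W175.GF
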