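import Pool.Agent.W175.GF.Cross

set_option autoImplicit false

/-!
The induction step in a fixed direction.
-/

namespace Pool.Agent.W175.GF

open Complex Filter Topology

variable {m : ℕ} {r : ℝ} {ι : Type} [Fintype ι] {a : ι → ℂ} {h : ι → ℂ → ℂ} {K : ℝ}

/-- linear independence over exponential polynomials -/
def LI (m : ℕ) (r : ℝ) (a : ι → ℂ) (h : ι → ℂ → ℂ) (N : Finset (ι → ℕ)) : Prop :=
  ∀ c : (ι → ℕ) → ℂ → ℂ, (∀ k ∈ N, EP m r (c k)) →
    (∀ s ∈ U r, ∑ k ∈ N, c k s * ∏ i, (Gamma (a i * s⁻¹ ^ m + h i s))⁻¹ ^ k i = 0) →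
    ∀ k ∈ N, ∀ s ∈ U r, c k s = 0

lemma allnz {N : Finset (ι → ℕ)} (IH : ∀ N' : Finset (ι → ℕ), N'.card < N.card → LI m r a h N')
    (c : (ι → ℕ) → ℂ → ℂ) (hc : ∀ k ∈ N, EP m r (c k))
    (hrel : ∀ s ∈ U r, ∑ k ∈ N, c k s * ∏ i, (Gamma (a i * s⁻¹ ^ m + h i s))⁻¹ ^ k i = 0)
    (hex : ∃ k ∈ N, ¬ ∀ s ∈ U r, c k s = 0) : ∀ k ∈ N, ¬ ∀ s ∈ U r, c k s = 0 := by
  classical
  intro k' hk' hz
  obtain ⟨k, hk, hne⟩ := hex
  have hkk : k ≠ k' := by rintro rfl; exact hne hz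
  apply hne
  apply IH (N.erase k') (Finset.card_erase_lt_of_mem hk') c
    (fun k hk => hc k (Finset.mem_of_mem_erase hk)) ?_ k (Finset.mem_erase.2 ⟨hkk, hk⟩)
  intro s hs
  have h1 := hrel s hs
  rw [← Finset.add_sum_erase _ _ hk', hz s hs, zero_mul, zero_add] at h1
  exact h1

lemma zd (D : DT m r ι a h K) (i : ι) :
    DifferentiableOn ℂ (fun s => a i * s⁻¹ ^ m + h i s) (U r) := by
  apply DifferentiableOn.add
  · apply DifferentiableOn.const_mul
    apply DifferentiableOn.pow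
    exact differentiableOn_id.inv fun s hs => U_ne hs
  · exact D.hh i

/-- near zero in the direction `ζ` the exponentials are small -/
lemma small_exp (D : DT m r ι a h K) {ζ : ℂ} (hζ : ‖ζ‖ = 1) (i : ι) {β : ℝ} (hβ : 0 < β)
    (hb : a i * ζ⁻¹ ^ m = β * I) : ∀ᶠ x : ℝ in 𝓝[>] (0 : ℝ), ζ * (x : ℂ) ∈ U r ∧
      ‖exp (2 * Real.pi * I * (a i * (ζ * (x : ℂ))⁻¹ ^ m + h i (ζ * x)))‖ < 1 := by
  have h1 : 0 < min r (β / (|K| + 1)) := lt_min D.hr (by positivity)
  filter_upwards [Ioo_mem_nhdsGT h1] with x hx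
  have hx0 : 0 < x := hx.1
  have hxr : x < r := hx.2.trans_le (min_le_left _ _)
  have hxb : x < β / (|K| + 1) := hx.2.trans_le (min_le_right _ _)
  have hn : ‖ζ * (x : ℂ)‖ = x := by
    rw [norm_mul, hζ, norm_real, Real.norm_eq_abs, abs_of_pos hx0, one_mul]
  have hmem : ζ * (x : ℂ) ∈ U r := ⟨by rw [hn]; exact hx0, by rw [hn]; exact hxr⟩
  refine ⟨hmem, ?_⟩
  rw [norm_exp, Real.exp_lt_one_iff]
  have h2 := D.hK i _ hmem
  rw [hn] at h2
  have h3 : a i * (ζ * (x : ℂ))⁻¹ ^ m = ((β * x⁻¹ ^ m : ℝ) : ℂ) * I := by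
    rw [mul_inv, mul_pow, ← mul_assoc, hb]
    push_cast
    ring
  rw [h3]
  have h4 : ∀ (y : ℝ) (w : ℂ), (2 * Real.pi * I * ((y : ℂ) * I + w)).re =
      2 * Real.pi * (-y - w.im) := by
    intro y w
    simp [mul_re, mul_im]
    ring
  rw [h4]
  have h5 : -(h i (ζ * x)).im ≤ |K| * x⁻¹ ^ (m - 1) := by
    have h6 := abs_im_le_norm (h i (ζ * x))
    have h7 := neg_le_abs (h i (ζ * x)).im
    have h8 : K * x⁻¹ ^ (m - 1) ≤ |K| * x⁻¹ ^ (m - 1) :=
      mul_le_mul_of_nonneg_right (le_abs_self K) (by positivity)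
    linarith
  have h6 : x⁻¹ ^ m = x⁻¹ * x⁻¹ ^ (m - 1) := by
    rw [← pow_succ']
    congr 1
    have := D.hm
    omega
  have h7 : |K| + 1 < β * x⁻¹ := by
    rw [lt_div_iff₀ (by positivity)] at hxb
    rw [← div_eq_mul_inv, lt_div_iff₀ hx0]
    linarith
  have h8 : 0 < x⁻¹ ^ (m - 1) := by positivity
  have h9 : |K| * x⁻¹ ^ (m - 1) < β * x⁻¹ ^ m := by
    rw [h6]
    nlinarith
  have h10 : -(β * x⁻¹ ^ m) - (h i (ζ * x)).im < 0 := by linarith
  nlinarith [Real.pi_pos]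

lemma gam_slow (D : DT m r ι a h K) (J : Finset ι) (β : ι → ℝ) (k : ι → ℕ) (u : ℂ) :
    Slow m r (gam J β h k u) := by
  unfold gam
  apply Slow.prod
  intro i _
  apply Slow.pow
  apply Slow.sub (Slow.const m r 1)
  have h1 : Slow m r (fun s => exp (2 * Real.pi * I * h i s)) := by
    apply Slow.exp_of_lower D.hm ((D.hh i).const_mul _) (‖(2 * Real.pi * I : ℂ)‖ * K)
    intro s hs
    have h3 := mul_le_mul_of_nonneg_left (D.hK i s hs) (norm_nonneg (2 * Real.pi * I : ℂ))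
    rw [norm_mul]
    linarith
  refine (h1.mul (Slow.const m r (exp (-(2 * Real.pi * β i * u))))).congr fun s _ => ?_
  rw [← exp_add]
  exact congrArg exp (by ring)

/-- behaviour of the torus factor at infinity -/
lemma gam_tendsto (J : Finset ι) (β : ι → ℝ) (hβ : ∀ i ∈ J, 0 < β i) (h : ι → ℂ → ℂ) (k : ι → ℕ)
    (s : ℂ) : Tendsto (fun X : ℝ => gam J β h k (X : ℂ) s) atTop (𝓝 1) := by
  have h1 : Tendsto (fun X : ℝ => ∏ i ∈ J, (1 - exp (2 * Real.pi * I * h i s -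
      2 * Real.pi * β i * X)) ^ k i) atTop (𝓝 (∏ i ∈ J, (1 - 0) ^ k i)) := by
    apply tendsto_finsetProd
    intro i hi
    apply Tendsto.pow
    apply Tendsto.const_sub
    rw [tendsto_zero_iff_norm_tendsto_zero]
    simp only [norm_exp]
    apply Real.tendsto_exp_atBot.comp
    have h2 : ∀ X : ℝ, (2 * Real.pi * I * h i s - 2 * Real.pi * β i * X).re =
        (2 * Real.pi * I * h i s).re + -(2 * Real.pi * β i) * X := by
      intro X
      simp [sub_re, mul_re, mul_im]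
      ring
    simp only [h2]
    apply tendsto_atBot_add_const_left
    apply Tendsto.const_mul_atTop_of_neg _ tendsto_id
    have := hβ i hi
    have := Real.pi_pos
    nlinarith [mul_pos this (hβ i hi)]
  simpa [gam] using h1

lemma prod_zero_U {α : Type} (S : Finset α) (f : α → ℂ → ℂ) (k : α → ℕ) (hr : 0 < r)
    (hf : ∀ i ∈ S, DifferentiableOn ℂ (f i) (U r)) (h0 : ∀ s ∈ U r, ∏ i ∈ S, f i s ^ k i = 0) :
    ∃ i ∈ S, ∀ s ∈ U r, f i s = 0 := by
  classical
  induction S using Finset.induction_on with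
  | empty =>
    obtain ⟨s, hs⟩ := U_nonempty hr
    have := h0 s hs
    simp at this
  | insert i S hi ih =>
    have h1 : ∀ s ∈ U r, f i s ^ k i * ∏ j ∈ S, f j s ^ k j = 0 := by
      intro s hs
      have h2 := h0 s hs
      rw [Finset.prod_insert hi] at h2
      exact h2
    rcases mul_zero_U ((hf i (Finset.mem_insert_self i S)).pow _) (DifferentiableOn.fun_finsetProd
      fun j hj => (hf j (Finset.mem_insert_of_mem hj)).pow _) h1 with h2 | h2
    · exact ⟨i, Finset.mem_insert_self i S, fun s hs => by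
        have h3 := h2 s hs
        by_contra hne
        exact pow_ne_zero _ hne h3⟩
    · obtain ⟨j, hj, h3⟩ := ih (fun j hj => hf j (Finset.mem_insert_of_mem hj)) h2
      exact ⟨j, Finset.mem_insert_of_mem hj, h3⟩

/-- the step in a fixed direction -/
lemma dirstep (hS : S_SEP) (hR : S_REG) (hJ : S_REGJ) (hL : S_LAST) (hG : S_GOOD)
    (D : DT m r ι a h K) {ζ : ℂ} (hζ : ‖ζ‖ = 1)
    (hdir : ∀ i, Dir (a i * ζ⁻¹ ^ m)) (N : Finset (ι → ℕ))
    (IH : ∀ N' : Finset (ι → ℕ), N'.card < N.card → LI m r a h N')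
    (k₀ k₁ : ι → ℕ) (hk₀ : k₀ ∈ N) (hk₁ : k₁ ∈ N) (j : ι) (hj : k₀ j ≠ k₁ j)
    (hre : (a j * ζ⁻¹ ^ m).re = 0) : LI m r a h N := by
  classical
  intro c hc hrel
  by_contra hcon
  push Not at hcon
  have hex : ∃ k ∈ N, ¬ ∀ s ∈ U r, c k s = 0 := by
    obtain ⟨k, hk, s, hs, hne⟩ := hcon
    exact ⟨k, hk, fun hz => hne (hz s hs)⟩
  have hall := fun c' hc' hrel' hex' => allnz (a := a) (h := h) (m := m) (r := r) (N := N) IH c' hc'
    hrel' hex'
  obtain ⟨p, ω, R, hR1, hrel2⟩ := homog hS hR D hζ hdir N c hc hrel k₀ hk₀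
    (hall c hc hrel hex k₀ hk₀) hall
  have hζ0 : ζ ≠ 0 := by intro h; rw [h] at hζ; simp at hζ
  have hζm : ζ⁻¹ ^ m ≠ 0 := pow_ne_zero _ (inv_ne_zero hζ0)
  set J : Finset ι := Finset.univ.filter fun i => (a i * ζ⁻¹ ^ m).re = 0 with hJd
  have hJm : ∀ i, i ∈ J ↔ (a i * ζ⁻¹ ^ m).re = 0 := by intro i; simp [hJd]
  set β : ι → ℝ := fun i => (a i * ζ⁻¹ ^ m).im with hβ
  have hJb : ∀ i ∈ J, a i * ζ⁻¹ ^ m = β i * I := by
    intro i hi
    apply Complex.ext
    · simp only [hβ, mul_re (_ : ℂ) I, ofReal_re, I_re, mul_zero, ofReal_im, I_im, mul_one, sub_self]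
      exact (hJm i).1 hi
    · rw [mul_im (_ : ℂ) I]
      simp only [hβ, ofReal_re, I_re, mul_zero, ofReal_im, I_im, mul_one, add_zero]
  have hJβ : ∀ i ∈ J, 0 < β i := by
    intro i hi
    rcases hdir i with h1 | h1
    · exact absurd ((hJm i).1 hi) (ne_of_gt h1)
    · exact h1.2
  have hjJ : j ∈ J := (hJm j).2 hre
  obtain ⟨M, hM⟩ : ∃ M : ℕ, ∀ k ∈ N, ∀ i, k i ≤ M := by
    refine ⟨∑ k ∈ N, ∑ i, k i, fun k hk i => ?_⟩
    calc k i ≤ ∑ i, k i := Finset.single_le_sum (fun _ _ => Nat.zero_le _) (Finset.mem_univ i)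
      _ ≤ ∑ k ∈ N, ∑ i, k i := Finset.single_le_sum (f := fun k : ι → ℕ => ∑ i, k i)
          (fun _ _ => Nat.zero_le _) hk
  have hk10 : k₁ ∈ N.erase k₀ := Finset.mem_erase.2 ⟨fun h1 => hj (by rw [h1]), hk₁⟩
  -- the bracket vanishes
  have hbr : ∀ u₁ u₂ : ℂ, ∀ s ∈ U r,
      gam J β h k₁ u₁ s * gam J β h k₀ u₂ s - gam J β h k₁ u₂ s * gam J β h k₀ u₁ s = 0 := by
    intro u₁ u₂
    have h1 := cross hS hR hJ D hζ hdir N p ω R (fun k hk => (hR1 k hk).1)
      (fun k hk => (hR1 k hk).2.2.1) (fun k hk => (hR1 k hk).2.2.2) hrel2 J hJm M hM k₀ u₁ u₂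
    set c'' : (ι → ℕ) → ℂ → ℂ := fun k s => R k s *
      (gam J β h k u₁ s * gam J β h k₀ u₂ s - gam J β h k u₂ s * gam J β h k₀ u₁ s) *
      exp (ω k * s⁻¹ ^ m) *
      ∏ i ∈ J, (1 - exp (2 * Real.pi * I * (a i * s⁻¹ ^ m + h i s))) ^ (M - k i) with hc''
    have h2 := IH (N.erase k₀) (Finset.card_erase_lt_of_mem hk₀) c'' (by
      intro k hk
      have hkN := Finset.mem_of_mem_erase hk
      have e1 : EP m r (R k) := EP.of_slow (hR1 k hkN).1
      have e2 : EP m r (fun s => gam J β h k u₁ s * gam J β h k₀ u₂ s -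
          gam J β h k u₂ s * gam J β h k₀ u₁ s) := EP.of_slow
        (((gam_slow D J β k u₁).mul (gam_slow D J β k₀ u₂)).sub
        ((gam_slow D J β k u₂).mul (gam_slow D J β k₀ u₁)))
      have e3 : EP m r (fun s => exp (ω k * s⁻¹ ^ m)) :=
        (EP.single (Slow.const m r 1) (ω k)).congr fun s _ => by rw [one_mul]
      have e4 : EP m r (fun s => ∏ i ∈ J, (1 - exp (2 * Real.pi * I *
          (a i * s⁻¹ ^ m + h i s))) ^ (M - k i)) := by
        apply EP.prod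
        intro i _
        apply EP.pow
        exact EP.sub (EP.const 1) (EP.exp_lower D.hm (a i) (D.hh i) K (D.hK i) _)
      exact ((e1.mul e2).mul e3).mul e4) (by
      intro s hs
      have h3 := h1 s hs
      rw [← Finset.add_sum_erase _ _ hk₀] at h3
      have h4 : gam J β h k₀ u₁ s * gam J β h k₀ u₂ s - gam J β h k₀ u₂ s * gam J β h k₀ u₁ s = 0 := by
        ring
      rw [h4, mul_zero, zero_mul, zero_mul, zero_mul, zero_add] at h3
      exact h3) k₁ hk10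
    have h3 : ∀ s ∈ U r, (R k₁ s * ∏ i ∈ J, (1 - exp (2 * Real.pi * I *
        (a i * s⁻¹ ^ m + h i s))) ^ (M - k₁ i)) *
        (gam J β h k₁ u₁ s * gam J β h k₀ u₂ s - gam J β h k₁ u₂ s * gam J β h k₀ u₁ s) = 0 := by
      intro s hs
      have h4 := h2 s hs
      simp only [hc''] at h4
      have h5 : exp (ω k₁ * s⁻¹ ^ m) ≠ 0 := exp_ne_zero _
      apply (mul_eq_zero.1 (?_ : _ * exp (ω k₁ * s⁻¹ ^ m) = 0)).resolve_right h5
      rw [← h4]
      ring
    have hEd : ∀ i ∈ J, DifferentiableOn ℂ (fun s => 1 - exp (2 * Real.pi * I *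
        (a i * s⁻¹ ^ m + h i s))) (U r) := fun i _ => (((zd D i).const_mul _).cexp).const_sub _
    have hPd : DifferentiableOn ℂ (fun s => ∏ i ∈ J, (1 - exp (2 * Real.pi * I *
        (a i * s⁻¹ ^ m + h i s))) ^ (M - k₁ i)) (U r) :=
      DifferentiableOn.fun_finsetProd fun i hi => (hEd i hi).pow _
    rcases mul_zero_U (((hR1 k₁ hk₁).1.1).mul hPd) (((gam_slow D J β k₁ u₁).mul
      (gam_slow D J β k₀ u₂)).sub ((gam_slow D J β k₁ u₂).mul (gam_slow D J β k₀ u₁))).1 h3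
      with h4 | h4
    · exfalso
      rcases mul_zero_U (hR1 k₁ hk₁).1.1 hPd h4 with h5 | h5
      · exact (hR1 k₁ hk₁).2.1 h5
      · obtain ⟨i, hi, h6⟩ := prod_zero_U J _ _ D.hr hEd h5
        obtain ⟨x, hx1, hx2⟩ := (small_exp D hζ i (hJβ i hi) (hJb i hi)).exists
        have h7 := h6 _ hx1
        have h8 : exp (2 * Real.pi * I * (a i * (ζ * (x : ℂ))⁻¹ ^ m + h i (ζ * x))) = 1 := by
          linear_combination -h7
        rw [h8, norm_one] at hx2
        exact lt_irrefl _ hx2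
    · exact h4
  -- let `u₂` tend to infinity
  have hgeq : ∀ u : ℂ, ∀ s ∈ U r, gam J β h k₁ u s = gam J β h k₀ u s := by
    intro u s hs
    have t1 : Tendsto (fun X : ℝ => gam J β h k₁ u s * gam J β h k₀ (X : ℂ) s -
        gam J β h k₁ (X : ℂ) s * gam J β h k₀ u s) atTop
        (𝓝 (gam J β h k₁ u s * 1 - 1 * gam J β h k₀ u s)) :=
      ((gam_tendsto J β hJβ h k₀ s).const_mul _).sub ((gam_tendsto J β hJβ h k₁ s).mul_const _)
    have t2 : Tendsto (fun X : ℝ => gam J β h k₁ u s * gam J β h k₀ (X : ℂ) s -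
        gam J β h k₁ (X : ℂ) s * gam J β h k₀ u s) atTop (𝓝 0) := by
      have : (fun X : ℝ => gam J β h k₁ u s * gam J β h k₀ (X : ℂ) s -
        gam J β h k₁ (X : ℂ) s * gam J β h k₀ u s) = fun _ => 0 := by
        funext X
        exact hbr u X s hs
      rw [this]
      exact tendsto_const_nhds
    have := tendsto_nhds_unique t1 t2
    linear_combination this
  -- a good point
  obtain ⟨s, hs, hgood⟩ := hG {i // i ∈ J} r (fun i => β i) (fun i => h i) ⟨j, hjJ⟩ D.hr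
    (fun i => D.hh i) (by
      rintro ⟨i, hi⟩ hne p' q ⟨hp', hq⟩
      have hij : i ≠ j := fun h1 => hne (Subtype.ext h1)
      apply D.hH i j hij p' q
      intro s hs
      have h1 := hq s hs
      simp only at h1 hp'
      have h2 : a i = p' * a j := by
        apply mul_right_cancel₀ hζm
        rw [hJb i hi, mul_assoc, hJb j hjJ, hp']
        push_cast
        ring
      rw [h1, h2]
      ring)
  have hfin := hL {i // i ∈ J} (fun i => β i) (fun i => h i s) ⟨j, hjJ⟩ (fun i => k₀ i)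
    (fun i => k₁ i) (fun i => hJβ i i.2) hgood (by
      intro u
      have h1 := hgeq u s hs
      unfold gam at h1
      rw [← Finset.prod_coe_sort J, ← Finset.prod_coe_sort J] at h1
      exact h1.symm)
  exact hj hfin

end Pool.Agent.W175.GF
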