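import Pool.Agent.W175.GF.Stm

set_option autoImplicit false

/-!
Project GF: the theorem in several variables.
-/

namespace Pool.Agent.W175.GF

open Complex

/-- Ax-Lindemann theorem for the Gamma function in several variables: values of `Γ` at
algebraic functions `y_i` of `t = (t_1, .., t_d)` are algebraically independent over `C(t)` -/
def S_GTD : Prop := ∀ (d n : ℕ) (Ω : Set (Fin d → ℂ)) (y : Fin n → (Fin d → ℂ) → ℂ),
  IsOpen Ω → IsPreconnected Ω → Ω.Nonempty →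
  (∀ i, AnalyticOnNhd ℂ (y i) Ω) →
  (∀ i, ∃ Q : Polynomial (MvPolynomial (Fin d) ℂ), Q ≠ 0 ∧
    ∀ t ∈ Ω, (Q.map (MvPolynomial.eval t)).eval (y i t) = 0) →
  (∀ i, ∀ v : ℂ, ¬ ∀ t ∈ Ω, y i t = v) →
  (∀ i j, i ≠ j → ∀ p q : ℚ, ¬ ∀ t ∈ Ω, y i t = p * y j t + q) →
  ∀ P : MvPolynomial (Fin n) (MvPolynomial (Fin d) ℂ), P ≠ 0 →
  ∃ t ∈ Ω, (∀ i, ∀ m : ℕ, y i t ≠ -m) ∧
    MvPolynomial.eval (fun i => Gamma (y i t)) (P.map (MvPolynomial.eval t)) ≠ 0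

end Pool.Agent.W175.GF
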