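import Pool.Agent.W175.GF.Final

set_option autoImplicit false

/-!
Tuples with some algebraic coordinates.
-/

namespace Pool.Agent.W175.GF

open Complex

lemma alg_countable (F : Subfield ℂ) (hF : (F : Set ℂ).Countable) :
    {x : ℂ | IsAlgebraic F x}.Countable := by
  have : Countable F := hF.to_subtype
  exact Algebraic.countable F ℂ

/-- the bad set for tuples all of whose coordinates are transcendental -/
def Bad (F : Subfield ℂ) (n : ℕ) : Set (Fin n → ℂ) :=
  {z : Fin n → ℂ | (∀ i, ¬ IsAlgebraic F (z i)) ∧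
    Algebra.trdeg F (IntermediateField.adjoin F (Set.range z)) ≤ 1 ∧
    (∀ i j, i ≠ j → ∀ p q : ℚ, z i ≠ p * z j + q) ∧
    Algebra.trdeg F (IntermediateField.adjoin F
      (Set.range z ∪ Set.range fun i => Gamma (z i))) < n + 1}

lemma trdeg_mono (F : Subfield ℂ) {A B : Set ℂ} (h : A ⊆ B) :
    Algebra.trdeg F (IntermediateField.adjoin F A) ≤
      Algebra.trdeg F (IntermediateField.adjoin F B) := by
  exact trdeg_le_of_injective (IntermediateField.inclusion
    (IntermediateField.adjoin.mono F A B h)) (IntermediateField.inclusion_injective _)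

theorem sub_countable (F : Subfield ℂ) (hF : (F : Set ℂ).Countable) (n : ℕ) :
    {z : Fin n → ℂ | (∃ i, ¬ IsAlgebraic F (z i)) ∧
      Algebra.trdeg F (IntermediateField.adjoin F (Set.range z)) ≤ 1 ∧
      (∀ i j, i ≠ j → ∀ p q : ℚ, z i ≠ p * z j + q) ∧
      Algebra.trdeg F (IntermediateField.adjoin F
        (Set.range z ∪ Set.range fun i => Gamma (z i))) <
          (Nat.card {i // ¬ IsAlgebraic F (z i)} : Cardinal) + 1}.Countable := by
  classical
  -- for a set `S` of indices
  have hS : ∀ S : Finset (Fin n), {z : Fin n → ℂ |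
      (fun k : Fin S.card => z (S.orderIsoOfFin rfl k)) ∈ Bad F S.card ∧
      ∀ i ∉ S, IsAlgebraic F (z i)}.Countable := by
    intro S
    have h1 : (Bad F S.card).Countable := nlF F hF S.card
    have h2 : ({w : Fin n → ℂ | ∀ i, IsAlgebraic F (w i)}).Countable := by
      have := Set.countable_univ_pi (fun _ : Fin n => alg_countable F hF)
      refine this.mono ?_
      intro w hw
      rw [Set.mem_univ_pi]
      exact hw
    have h3 := h1.prod h2
    refine Set.Countable.mono ?_ (h3.image fun x : (Fin S.card → ℂ) × (Fin n → ℂ) =>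
      fun i : Fin n => if hi : i ∈ S then x.1 ((S.orderIsoOfFin rfl).symm ⟨i, hi⟩) else x.2 i)
    rintro z ⟨hz1, hz2⟩
    refine ⟨(fun k : Fin S.card => z (S.orderIsoOfFin rfl k), fun i => if i ∈ S then 0 else z i),
      ⟨hz1, ?_⟩, ?_⟩
    · intro i
      simp only
      by_cases hi : i ∈ S
      · rw [if_pos hi]; exact isAlgebraic_zero
      · rw [if_neg hi]; exact hz2 i hi
    · funext i
      by_cases hi : i ∈ S
      · simp [hi]
      · simp [hi]
  have hU := Set.countable_iUnion fun S : Finset (Fin n) => hS S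
  refine hU.mono ?_
  rintro z ⟨-, hz1, hzH, hz2⟩
  rw [Set.mem_iUnion]
  refine ⟨Finset.univ.filter fun i => ¬ IsAlgebraic F (z i), ?_, ?_⟩
  · set S := Finset.univ.filter fun i => ¬ IsAlgebraic F (z i) with hSd
    have hmem : ∀ k : Fin S.card, ¬ IsAlgebraic F (z (S.orderIsoOfFin rfl k)) := by
      intro k
      have h1 := (S.orderIsoOfFin rfl k).2
      have h2 : ∀ i, i ∈ S → ¬ IsAlgebraic F (z i) := by
        intro i hi
        rw [hSd, Finset.mem_filter] at hi
        exact hi.2
      exact h2 _ h1
    have hsub1 : Set.range (fun k : Fin S.card => z (S.orderIsoOfFin rfl k)) ⊆ Set.range z := by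
      rintro _ ⟨k, rfl⟩
      exact ⟨_, rfl⟩
    have hsub2 : Set.range (fun k : Fin S.card => Gamma (z (S.orderIsoOfFin rfl k))) ⊆
        Set.range fun i => Gamma (z i) := by
      rintro _ ⟨k, rfl⟩
      exact ⟨_, rfl⟩
    refine ⟨hmem, (trdeg_mono F hsub1).trans hz1, ?_, ?_⟩
    · intro k l hkl p q
      apply hzH
      intro h
      exact hkl ((S.orderIsoOfFin rfl).injective (Subtype.ext h))
    · have hc : Nat.card {i // ¬ IsAlgebraic F (z i)} = S.card := by
        rw [Nat.card_eq_fintype_card, Fintype.card_subtype]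
      rw [hc] at hz2
      exact lt_of_le_of_lt (trdeg_mono F (Set.union_subset_union hsub1 hsub2)) hz2
  · intro i hi
    by_contra h
    exact hi (Finset.mem_filter.2 ⟨Finset.mem_univ i, h⟩)

end Pool.Agent.W175.GF
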