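import Pool.Agent.W175.GF.Step

set_option autoImplicit false

/-!
The theorem for poles of the same order.
-/

namespace Pool.Agent.W175.GF

open Complex Filter Topology

variable {m : ℕ} {r : ℝ} {ι : Type} [Fintype ι] {a : ι → ℂ} {h : ι → ℂ → ℂ} {K : ℝ}

lemma exists_zeta {m : ℕ} (hm : 1 ≤ m) {a : ℂ} (ha : a ≠ 0) :
    ∃ ζ : ℂ, ‖ζ‖ = 1 ∧ a * ζ⁻¹ ^ m = (‖a‖ : ℝ) * I := by
  have hn : (‖a‖ : ℂ) ≠ 0 := by exact_mod_cast (norm_pos_iff.2 ha).ne'
  have hm' : (m : ℂ) ≠ 0 := by exact_mod_cast (by omega : m ≠ 0)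
  refine ⟨exp ((((arg a - Real.pi / 2) / m : ℝ) : ℂ) * I), norm_exp_ofReal_mul_I _, ?_⟩
  rw [← exp_neg, ← exp_nat_mul]
  have h1 : (m : ℂ) * -((((arg a - Real.pi / 2) / m : ℝ) : ℂ) * I) =
      -(arg a * I) + Real.pi / 2 * I := by
    push_cast
    field_simp
    ring
  rw [h1, exp_add, exp_pi_div_two_mul_I]
  have h2 : a = ‖a‖ * exp (arg a * I) := (norm_mul_exp_arg_mul_I a).symm
  have h3 : a * exp (-(arg a * I)) = ‖a‖ := by
    nth_rewrite 1 [h2]
    rw [mul_assoc, ← exp_add]
    simp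
  rw [← mul_assoc, h3]

lemma refl_id (z : ℂ) : (Gamma z)⁻¹ * (Gamma (-z))⁻¹ = -z * sin (Real.pi * z) / Real.pi := by
  have hpi : (Real.pi : ℂ) ≠ 0 := by exact_mod_cast Real.pi_ne_zero
  by_cases hint : ∃ n : ℤ, z = n
  · obtain ⟨n, rfl⟩ := hint
    have hs : sin (Real.pi * (n : ℂ)) = 0 := by
      rw [mul_comm]; exact sin_int_mul_pi n
    rw [hs]
    have : Gamma (n : ℂ) = 0 ∨ Gamma (-(n : ℂ)) = 0 := by
      rcases le_total 0 n with hn | hn
      · right
        obtain ⟨k, rfl⟩ := Int.eq_ofNat_of_zero_le hn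
        simpa using Gamma_neg_nat_eq_zero k
      · left
        obtain ⟨k, hk⟩ := Int.eq_ofNat_of_zero_le (neg_nonneg.2 hn)
        have : (n : ℂ) = -(k : ℂ) := by
          have : n = -(k : ℤ) := by omega
          rw [this]; push_cast; ring
        rw [this]
        exact Gamma_neg_nat_eq_zero k
    rcases this with h | h <;> simp [h]
  · push Not at hint
    have hz0 : z ≠ 0 := by simpa using hint 0
    have h1 : Gamma (1 - z) = -z * Gamma (-z) := by
      rw [← Gamma_add_one (-z) (neg_ne_zero.2 hz0)]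
      congr 1; ring
    have hΓ : Gamma z ≠ 0 := Gamma_ne_zero fun n => by
      have := hint (-n); push_cast at this; exact this
    have hΓ' : Gamma (-z) ≠ 0 := Gamma_ne_zero fun n hn => by
      apply hint n
      push_cast
      exact neg_injective hn
    have h2 := Gamma_mul_Gamma_one_sub z
    have hsin : sin (Real.pi * z) ≠ 0 := by
      intro h0
      rw [h0, div_zero, h1] at h2
      exact mul_ne_zero hΓ (mul_ne_zero (neg_ne_zero.2 hz0) hΓ') h2
    rw [h1, eq_div_iff hsin] at h2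
    rw [eq_div_iff hpi, ← mul_inv, inv_mul_eq_iff_eq_mul₀ (mul_ne_zero hΓ hΓ')]
    linear_combination -h2

lemma not_exp_one (D : DT m r ι a h K) (i : ι) :
    ¬ ∀ s ∈ U r, exp (2 * Real.pi * I * (a i * s⁻¹ ^ m + h i s)) = 1 := by
  intro hcon
  obtain ⟨ζ, hζ, hb⟩ := exists_zeta D.hm (D.ha i)
  obtain ⟨x, hx1, hx2⟩ := (small_exp D hζ i (norm_pos_iff.2 (D.ha i)) hb).exists
  rw [hcon _ hx1, norm_one] at hx2
  exact lt_irrefl _ hx2

/-- the reflection factor -/
noncomputable def rf (w : ℂ) : ℂ := -w * sin (Real.pi * w) / Real.pi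

lemma rf_EP (D : DT m r ι a h K) (i : ι) : EP m r (fun s => rf (a i * s⁻¹ ^ m + h i s)) := by
  have hr1 : r ≤ 1 := D.hr1.le
  have e1 : EP m r (fun s : ℂ => s⁻¹ ^ m) := by
    apply EP.of_slow
    apply Slow.of_poly D.hm (f := fun s : ℂ => s⁻¹ ^ m) _ m 1 _ hr1
    · exact (differentiableOn_id.inv fun s hs => U_ne hs).pow _
    · intro s _
      rw [norm_pow, norm_inv, one_mul]
  have e2 : EP m r (h i) := EP.of_slow (Slow.of_poly D.hm (D.hh i) (m - 1) K (D.hK i) hr1)
  have e3 : EP m r (fun s => a i * s⁻¹ ^ m + h i s) := ((EP.const (a i)).mul e1).add e2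
  have e4 := EP.exp_lower D.hm (a i) (D.hh i) K (D.hK i) (Real.pi * I)
  have e5 := EP.exp_lower D.hm (a i) (D.hh i) K (D.hK i) (-(Real.pi * I))
  have e6 : EP m r (fun s => sin (Real.pi * (a i * s⁻¹ ^ m + h i s))) := by
    refine ((e5.sub e4).mul (EP.const (I / 2))).congr fun s _ => ?_
    rw [sin]
    have h1 : -(Real.pi * (a i * s⁻¹ ^ m + h i s)) * I =
        -(Real.pi * I) * (a i * s⁻¹ ^ m + h i s) := by ring
    have h2 : (Real.pi * (a i * s⁻¹ ^ m + h i s)) * I =
        Real.pi * I * (a i * s⁻¹ ^ m + h i s) := by ring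
    rw [h1, h2]
    ring
  refine ((e3.neg.mul e6).mul (EP.const (Real.pi : ℂ)⁻¹)).congr fun s _ => ?_
  unfold rf
  rw [div_eq_mul_inv]

lemma rf_ne (D : DT m r ι a h K) (i : ι) : ¬ ∀ s ∈ U r, rf (a i * s⁻¹ ^ m + h i s) = 0 := by
  intro hcon
  have hpi : (Real.pi : ℂ) ≠ 0 := by exact_mod_cast Real.pi_ne_zero
  apply not_exp_one D i
  intro s hs
  have h1 := hcon s hs
  unfold rf at h1
  rw [div_eq_zero_iff] at h1
  have h2 := h1.resolve_right hpi
  rcases mul_eq_zero.1 h2 with h3 | h3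
  · rw [neg_eq_zero.1 h3, mul_zero, exp_zero]
  · rw [sin_eq_zero_iff] at h3
    obtain ⟨n, hn⟩ := h3
    rw [exp_eq_one_iff]
    refine ⟨n, ?_⟩
    have : a i * s⁻¹ ^ m + h i s = n := by
      apply mul_left_cancel₀ hpi
      rw [hn]; ring
    rw [this]; ring

/-- change of signs -/
lemma DT.signs (D : DT m r ι a h K) (ε : ι → ℤ) (hε : ∀ i, ε i = 1 ∨ ε i = -1) :
    DT m r ι (fun i => ε i * a i) (fun i s => ε i * h i s) K where
  hm := D.hm
  hr := D.hr
  hr1 := D.hr1
  ha i := by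
    rcases hε i with h1 | h1 <;> simp [h1, D.ha i]
  hh i := (D.hh i).const_mul _
  hK i s hs := by
    have := D.hK i s hs
    rcases hε i with h1 | h1 <;> simpa [h1] using this
  hH i j hij p q hcon := by
    apply D.hH i j hij (ε i * ε j * p) (ε i * q)
    intro s hs
    have h2 := hcon s hs
    have h3 : (ε i : ℂ) * ε i = 1 := by
      rcases hε i with h1 | h1 <;> simp [h1]
    have h4 : a i * s⁻¹ ^ m + h i s = ε i * (ε i * (a i * s⁻¹ ^ m + h i s)) := by
      rw [← mul_assoc, h3, one_mul]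
    rw [h4]
    have h5 : ε i * (a i * s⁻¹ ^ m + h i s) = ε i * a i * s⁻¹ ^ m + ε i * h i s := by ring
    rw [h5, h2]
    push_cast
    ring

theorem tg (hS : S_SEP) (hR : S_REG) (hJ : S_REGJ) (hL : S_LAST) (hG : S_GOOD) : S_TG := by
  classical
  intro m r ι _ a h K hm hr hr1 ha hh hK hH N
  have D : DT m r ι a h K := ⟨hm, hr, hr1, ha, hh, hK, hH⟩
  clear hm hr hr1 ha hh hK hH
  show LI m r a h N
  induction hn : N.card using Nat.strong_induction_on generalizing a h N with
  | _ n IH =>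
  have IH' : ∀ (a' : ι → ℂ) (h' : ι → ℂ → ℂ), DT m r ι a' h' K → ∀ N' : Finset (ι → ℕ),
      N'.card < N.card → LI m r a' h' N' := by
    intro a' h' D' N' hN'
    exact IH N'.card (hn ▸ hN') a' h' N' D' rfl
  by_cases hsub : ∀ k₀ ∈ N, ∀ k₁ ∈ N, k₀ = k₁
  · -- at most one exponent
    intro c hc hrel k hk
    have hNk : N = {k} := by
      ext k'
      rw [Finset.mem_singleton]
      exact ⟨fun h1 => hsub _ h1 _ hk, fun h1 => h1 ▸ hk⟩
    have h1 : ∀ s ∈ U r, c k s * ∏ i, (Gamma (a i * s⁻¹ ^ m + h i s))⁻¹ ^ k i = 0 := by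
      intro s hs
      have := hrel s hs
      rwa [hNk, Finset.sum_singleton] at this
    have hqd : ∀ i ∈ (Finset.univ : Finset ι), DifferentiableOn ℂ
        (fun s => (Gamma (a i * s⁻¹ ^ m + h i s))⁻¹) (U r) := fun i _ =>
      Complex.differentiable_one_div_Gamma.comp_differentiableOn (zd D i)
    rcases mul_zero_U (hc k hk).diff (DifferentiableOn.fun_finsetProd fun i hi => (hqd i hi).pow _)
      h1 with h2 | h2
    · exact h2
    · exfalso
      obtain ⟨i, -, h3⟩ := prod_zero_U Finset.univ _ _ D.hr hqd h2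
      apply not_exp_one D i
      intro s hs
      have h4 := h3 s hs
      simp only [inv_eq_zero, Gamma_eq_zero_iff] at h4
      obtain ⟨n, hn⟩ := h4
      rw [hn, exp_eq_one_iff]
      exact ⟨-(n : ℤ), by push_cast; ring⟩
  · push Not at hsub
    obtain ⟨k₀, hk₀, k₁, hk₁, hne⟩ := hsub
    obtain ⟨j, hj⟩ : ∃ j, k₀ j ≠ k₁ j := by
      by_contra hcon
      push Not at hcon
      exact hne (funext hcon)
    obtain ⟨ζ, hζ, hb⟩ := exists_zeta D.hm (D.ha j)
    have hζ0 : ζ ≠ 0 := by intro h; rw [h] at hζ; simp at hζ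
    have hζm : ζ⁻¹ ^ m ≠ 0 := pow_ne_zero _ (inv_ne_zero hζ0)
    -- signs
    set ε : ι → ℤ := fun i => if Dir (a i * ζ⁻¹ ^ m) then 1 else -1 with hε
    have hε1 : ∀ i, ε i = 1 ∨ ε i = -1 := by
      intro i
      simp only [hε]
      split_ifs
      · exact Or.inl rfl
      · exact Or.inr rfl
    have hjdir : Dir (a j * ζ⁻¹ ^ m) := by
      right
      rw [hb]
      simpa using D.ha j
    have hjε : ε j = 1 := by simp only [hε, if_pos hjdir]
    have D' := D.signs ε hε1
    set a' : ι → ℂ := fun i => ε i * a i with ha'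
    set h' : ι → ℂ → ℂ := fun i s => ε i * h i s with hh'
    have hdir' : ∀ i, Dir (a' i * ζ⁻¹ ^ m) := by
      intro i
      simp only [ha']
      by_cases hd : Dir (a i * ζ⁻¹ ^ m)
      · simp only [hε, if_pos hd, Int.cast_one, one_mul]
        exact hd
      · have h0 : a i * ζ⁻¹ ^ m ≠ 0 := mul_ne_zero (D.ha i) hζm
        simp only [hε, if_neg hd]
        have e1 : ((-1 : ℤ) : ℂ) * a i * ζ⁻¹ ^ m = -(a i * ζ⁻¹ ^ m) := by push_cast; ring
        rw [e1]
        unfold Dir at hd ⊢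
        rw [neg_re, neg_im]
        push Not at hd
        obtain ⟨hd1, hd2⟩ := hd
        rcases lt_or_eq_of_le hd1 with h1 | h1
        · left; linarith
        · right
          refine ⟨by rw [h1, neg_zero], ?_⟩
          have h2 := hd2 h1
          rcases lt_or_eq_of_le h2 with h3 | h3
          · linarith
          · exact absurd (Complex.ext h1 h3) h0
    obtain ⟨M, hM⟩ : ∃ M : ℕ, ∀ k ∈ N, ∀ i, k i ≤ M := by
      refine ⟨∑ k ∈ N, ∑ i, k i, fun k hk i => ?_⟩
      calc k i ≤ ∑ i, k i := Finset.single_le_sum (fun _ _ => Nat.zero_le _) (Finset.mem_univ i)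
        _ ≤ ∑ k ∈ N, ∑ i, k i := Finset.single_le_sum (f := fun k : ι → ℕ => ∑ i, k i)
            (fun _ _ => Nat.zero_le _) hk
    set T : (ι → ℕ) → (ι → ℕ) := fun k i => if ε i = 1 then k i else M - k i with hT
    have hTinj : Set.InjOn T N := by
      intro k hk k' hk' heq
      funext i
      have h1 := congrFun heq i
      simp only [hT] at h1
      by_cases h2 : ε i = 1
      · simpa [h2] using h1
      · simp only [if_neg h2] at h1
        have := hM k hk i
        have := hM k' hk' i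
        omega
    have hcard : (N.image T).card = N.card := Finset.card_image_of_injOn hTinj
    have hLI' : LI m r a' h' (N.image T) := by
      apply dirstep hS hR hJ hL hG D' hζ hdir' (N.image T) ?_ (T k₀) (T k₁)
        (Finset.mem_image_of_mem T hk₀) (Finset.mem_image_of_mem T hk₁) j
      · simp only [hT, hjε, if_true]
        exact hj
      · simp only [ha', hjε, Int.cast_one, one_mul]
        rw [hb]
        simp
      · intro N' hN'
        rw [hcard] at hN'
        exact IH' a' h' D' N' hN'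
    -- transfer
    intro c hc hrel
    set neg : Finset ι := Finset.univ.filter fun i => ε i ≠ 1 with hneg
    set c' : (ι → ℕ) → ℂ → ℂ := fun k s => c k s * ∏ i ∈ neg, rf (a i * s⁻¹ ^ m + h i s) ^ k i
      with hc'
    have hc'EP : ∀ k ∈ N, EP m r (c' k) := fun k hk =>
      (hc k hk).mul (EP.prod _ _ fun i _ => (rf_EP D i).pow _)
    have hinv : ∀ k' ∈ N.image T, ∃ k ∈ N, T k = k' := fun k' hk' => Finset.mem_image.1 hk'
    choose! inv hinv1 hinv2 using hinv
    have hinvT : ∀ k ∈ N, inv (T k) = k := by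
      intro k hk
      have h1 := Finset.mem_image_of_mem T hk
      exact hTinj (hinv1 _ h1) hk (hinv2 _ h1)
    have key := hLI' (fun k' => c' (inv k')) (fun k' hk' => hc'EP _ (hinv1 k' hk')) (by
      intro s hs
      rw [Finset.sum_image hTinj]
      have h1 := hrel s hs
      have h2 : (∑ k ∈ N, c k s * ∏ i, (Gamma (a i * s⁻¹ ^ m + h i s))⁻¹ ^ k i) *
          ∏ i ∈ neg, (Gamma (-(a i * s⁻¹ ^ m + h i s)))⁻¹ ^ M = 0 := by rw [h1, zero_mul]
      rw [← h2, Finset.sum_mul]
      refine Finset.sum_congr rfl fun k hk => ?_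
      rw [hinvT k hk]
      simp only [hc']
      rw [mul_assoc, mul_assoc]
      congr 1
      have hni : ∀ f : ι → ℂ, ∏ i ∈ neg, f i = ∏ i, if ε i = 1 then 1 else f i := by
        intro f
        rw [hneg, Finset.prod_filter]
        refine Finset.prod_congr rfl fun i _ => ?_
        by_cases h3 : ε i = 1
        · simp [h3]
        · simp [h3]
      rw [hni, hni, ← Finset.prod_mul_distrib, ← Finset.prod_mul_distrib]
      refine Finset.prod_congr rfl fun i _ => ?_
      by_cases h3 : ε i = 1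
      · simp only [h3, if_true, one_mul, mul_one, ha', hh', hT, Int.cast_one]
      · have h4 : ε i = -1 := (hε1 i).resolve_left h3
        simp only [h3, if_false, ha', hh', hT]
        have e1 : (ε i : ℂ) * a i * s⁻¹ ^ m + ε i * h i s = -(a i * s⁻¹ ^ m + h i s) := by
          rw [h4]; push_cast; ring
        rw [e1]
        have e2 : rf (a i * s⁻¹ ^ m + h i s) = (Gamma (a i * s⁻¹ ^ m + h i s))⁻¹ *
            (Gamma (-(a i * s⁻¹ ^ m + h i s)))⁻¹ := (refl_id _).symm
        rw [e2, mul_pow, mul_assoc, ← pow_add, Nat.add_sub_cancel' (hM k hk i)])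
    intro k hk s
    have h1 := key (T k) (Finset.mem_image_of_mem T hk)
    simp only [hinvT k hk] at h1
    have hrd : ∀ i ∈ neg, DifferentiableOn ℂ (fun s => rf (a i * s⁻¹ ^ m + h i s)) (U r) :=
      fun i _ => (rf_EP D i).diff
    rcases mul_zero_U (hc k hk).diff (DifferentiableOn.fun_finsetProd fun i hi => (hrd i hi).pow _)
      h1 with h2 | h2
    · exact h2 s
    · exfalso
      obtain ⟨i, -, h3⟩ := prod_zero_U neg _ _ D.hr hrd h2
      exact rf_ne D i h3

end Pool.Agent.W175.GF
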